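import Pool.Agent.Y214.CY.Stm

/-!
Coefficients of an anisotropic binary cubic form over a local field; the absolute values of an
anisotropic cubic form are ultrametric (the proofs of the starting library for `ℚ_p`, for all
local fields).
-/

set_option autoImplicit false

namespace Pool.Agent.K7.H13.CL

open Module Polynomial
open Pool.Agent.Y214.CY

variable {K : Type} [NontriviallyNormedField K] [IsUltrametricDist K] [ProperSpace K]

theorem norms (b c d : K)
    (h : ∀ x : K, x ^ 3 + b * x ^ 2 + c * x + d ≠ 0) :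
    ‖b‖ ^ 3 ≤ ‖d‖ ∧ ‖c‖ ^ 3 ≤ ‖d‖ ^ 2 := by
  obtain ⟨P, hP⟩ : ∃ P : K[X], P = (⟨1, b, c, d⟩ : Cubic K).toPoly := ⟨_, rfl⟩
  have hmon : P.Monic := hP ▸ Cubic.monic_of_a_eq_one rfl
  have hdeg : P.natDegree = 3 := hP ▸ Cubic.natDegree_of_a_ne_zero one_ne_zero
  have hc0 : P.coeff 0 = d := hP ▸ Cubic.coeff_eq_d
  have hc1 : P.coeff 1 = c := hP ▸ Cubic.coeff_eq_c
  have hc2 : P.coeff 2 = b := hP ▸ Cubic.coeff_eq_b
  have hroot : P.roots = 0 := by
    rw [Multiset.eq_zero_iff_forall_notMem]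
    intro x hx
    have h1 := (mem_roots'.1 hx).2
    rw [IsRoot.def, hP] at h1
    apply h x
    simpa [Cubic.toPoly] using h1
  have hirr : Irreducible P :=
    (hmon.irreducible_iff_roots_eq_zero_of_degree_le_three (by omega) (by omega)).2 hroot
  obtain ⟨α, hα⟩ : ∃ α : AlgebraicClosure K, aeval α P = 0 :=
    IsAlgClosed.exists_aeval_eq_zero _ P (by
      rw [degree_eq_natDegree hmon.ne_zero, hdeg]
      norm_num)
  have hmin : minpoly K α = P := (minpoly.eq_of_irreducible_of_monic hirr hα hmon).symm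
  have h1 := spectralNorm.spectralNorm_eq_norm_coeff_zero_rpow K (AlgebraicClosure K) α
  rw [spectralNorm, hmin, hdeg, hc0] at h1
  have h2 : ∀ i, spectralValueTerms P i ≤ spectralValue P := fun i =>
    le_ciSup (spectralValueTerms_bddAbove P) i
  obtain ⟨v, hv⟩ : ∃ v, v = ‖d‖ ^ (1 / (3 : ℕ) : ℝ) := ⟨_, rfl⟩
  have hv0 : 0 ≤ v := by rw [hv]; positivity
  have hv3 : v ^ 3 = ‖d‖ := by
    rw [hv, one_div]
    exact Real.rpow_inv_natCast_pow (norm_nonneg _) (by norm_num)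
  rw [← hv] at h1
  have h3 := h2 2
  rw [spectralValueTerms_of_lt_natDegree P (by omega), h1, hc2, hdeg] at h3
  have h4 := h2 1
  rw [spectralValueTerms_of_lt_natDegree P (by omega), h1, hc1, hdeg] at h4
  have e3 : (1 / (((3 : ℕ) : ℝ) - ((2 : ℕ) : ℝ))) = 1 := by norm_num
  have e4 : (1 / (((3 : ℕ) : ℝ) - ((1 : ℕ) : ℝ))) = ((2 : ℕ) : ℝ)⁻¹ := by norm_num
  rw [e3, Real.rpow_one] at h3
  rw [e4] at h4
  have h5 := Real.rpow_inv_natCast_pow (norm_nonneg c) (two_ne_zero)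
  obtain ⟨u, hu⟩ : ∃ u, u = ‖c‖ ^ (((2 : ℕ) : ℝ)⁻¹) := ⟨_, rfl⟩
  have hu0 : 0 ≤ u := by rw [hu]; positivity
  rw [← hu] at h4 h5
  constructor
  · rw [← hv3]
    exact pow_le_pow_left₀ (norm_nonneg _) h3 3
  · rw [← hv3, ← h5, ← pow_mul, ← pow_mul]
    exact pow_le_pow_left₀ hu0 h4 6

theorem bl (A B C D : K)
    (h : ∀ s r : K, (s ≠ 0 ∨ r ≠ 0) → A * s ^ 3 + B * s ^ 2 * r + C * s * r ^ 2 + D * r ^ 3 ≠ 0) :
    ‖B‖ ^ 3 ≤ ‖A‖ ^ 2 * ‖D‖ ∧ ‖C‖ ^ 3 ≤ ‖A‖ * ‖D‖ ^ 2 := by
  have hA : A ≠ 0 := by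
    have := h 1 0 (Or.inl one_ne_zero)
    simpa using this
  have h1 := norms (B / A) (C / A) (D / A) (by
    intro x hx
    apply h x 1 (Or.inr one_ne_zero)
    have e1 : A * x ^ 3 + B * x ^ 2 * 1 + C * x * 1 ^ 2 + D * 1 ^ 3 =
        A * (x ^ 3 + B / A * x ^ 2 + C / A * x + D / A) := by
      field_simp
    rw [e1, hx, mul_zero])
  obtain ⟨h2, h3⟩ := h1
  have hA' : 0 < ‖A‖ := norm_pos_iff.2 hA
  rw [norm_div, norm_div, div_pow, div_le_div_iff₀ (by positivity) hA'] at h2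
  rw [norm_div, norm_div, div_pow, div_pow, div_le_div_iff₀ (by positivity) (by positivity)] at h3
  constructor
  · refine le_of_mul_le_mul_right ?_ hA'
    calc _ ≤ ‖D‖ * ‖A‖ ^ 3 := h2
      _ = _ := by ring
  · refine le_of_mul_le_mul_right ?_ (pow_pos hA' 2)
    calc _ ≤ ‖D‖ ^ 2 * ‖A‖ ^ 3 := h3
      _ = _ := by ring

section

variable {n : ℕ} (t : Fin n → Fin n → Fin n → K)

/-- the mixed coefficient -/
noncomputable def mx (x y : Fin n → K) : K :=
  ∑ i, ∑ j, ∑ k, t i j k * (x i * x j * y k + x i * y j * x k + y i * x j * x k)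

theorem cub_expand (x y : Fin n → K) (s r : K) :
    cub t (s • x + r • y) = cub t x * s ^ 3 + mx t x y * s ^ 2 * r + mx t y x * s * r ^ 2 +
      cub t y * r ^ 3 := by
  unfold cub mx
  simp only [Finset.sum_mul, ← Finset.sum_add_distrib]
  refine Finset.sum_congr rfl fun i _ => Finset.sum_congr rfl fun j _ =>
    Finset.sum_congr rfl fun k _ => ?_
  simp only [Algebra.algebraMap_self, RingHom.id_apply, Pi.add_apply, Pi.smul_apply, smul_eq_mul]
  ring

theorem cub_smul (x : Fin n → K) (s : K) : cub t (s • x) = s ^ 3 * cub t x := by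
  unfold cub
  simp only [Finset.mul_sum]
  refine Finset.sum_congr rfl fun i _ => Finset.sum_congr rfl fun j _ =>
    Finset.sum_congr rfl fun k _ => ?_
  simp only [Pi.smul_apply, smul_eq_mul]
  ring

theorem dep (y : Fin n → K) (c : K) :
    ‖cub t (c • y + y)‖ ≤ max ‖cub t (c • y)‖ ‖cub t y‖ := by
  have h1 : c • y + y = (c + 1) • y := by rw [add_smul, one_smul]
  rw [h1, cub_smul, cub_smul, norm_mul, norm_mul, norm_pow, norm_pow]
  have h2 : ‖c + 1‖ ≤ max ‖c‖ ‖(1 : K)‖ := IsUltrametricDist.norm_add_le_max _ _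
  rw [norm_one] at h2
  rcases le_total ‖c‖ 1 with h3 | h3
  · rw [max_eq_right h3] at h2
    refine le_trans ?_ (le_max_right _ _)
    calc ‖c + 1‖ ^ 3 * ‖cub t y‖ ≤ 1 ^ 3 * ‖cub t y‖ := by gcongr
      _ = _ := by ring
  · rw [max_eq_left h3] at h2
    refine le_trans ?_ (le_max_left _ _)
    gcongr

end

theorem ult {n : ℕ} (t : Fin n → Fin n → Fin n → K) (ht : Aniso K t) (x y : Fin n → K) :
    ‖cub t (x + y)‖ ≤ max ‖cub t x‖ ‖cub t y‖ := by
  by_cases hdep : ∀ s r : K, (s ≠ 0 ∨ r ≠ 0) → s • x + r • y ≠ 0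
  · obtain ⟨h1, h2⟩ := bl (cub t x) (mx t x y) (mx t y x) (cub t y) (by
      intro s r hsr
      rw [← cub_expand]
      exact ht _ (hdep s r hsr))
    have h3 := cub_expand t x y 1 1
    rw [one_smul, one_smul] at h3
    simp only [one_pow, mul_one] at h3
    obtain ⟨M, hM⟩ : ∃ M, M = max ‖cub t x‖ ‖cub t y‖ := ⟨_, rfl⟩
    have hxM : ‖cub t x‖ ≤ M := hM ▸ le_max_left _ _
    have hyM : ‖cub t y‖ ≤ M := hM ▸ le_max_right _ _
    have hM0 : 0 ≤ M := (norm_nonneg _).trans hxM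
    have h4 : ‖mx t x y‖ ≤ M := by
      refine (pow_le_pow_iff_left₀ (norm_nonneg _) hM0 (three_ne_zero)).1 (h1.trans ?_)
      calc ‖cub t x‖ ^ 2 * ‖cub t y‖ ≤ M ^ 2 * M := by gcongr
        _ = M ^ 3 := by ring
    have h5 : ‖mx t y x‖ ≤ M := by
      refine (pow_le_pow_iff_left₀ (norm_nonneg _) hM0 (three_ne_zero)).1 (h2.trans ?_)
      calc ‖cub t x‖ * ‖cub t y‖ ^ 2 ≤ M * M ^ 2 := by gcongr
        _ = M ^ 3 := by ring
    rw [← hM, h3]
    refine (IsUltrametricDist.norm_add_le_max _ _).trans (max_le ?_ hyM)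
    refine (IsUltrametricDist.norm_add_le_max _ _).trans (max_le ?_ h5)
    exact (IsUltrametricDist.norm_add_le_max _ _).trans (max_le hxM h4)
  · push Not at hdep
    obtain ⟨s, r, hsr, h0⟩ := hdep
    rcases hsr with hs | hr
    · have hx : x = (-(r / s)) • y := by
        have h1 : s • (x - (-(r / s)) • y) = 0 := by
          rw [smul_sub, smul_smul, ← h0]
          have : s * -(r / s) = -r := by field_simp
          rw [this, neg_smul, sub_neg_eq_add]
        exact sub_eq_zero.1 ((smul_eq_zero.1 h1).resolve_left hs)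
      rw [hx]
      exact dep t y _
    · have hy : y = (-(s / r)) • x := by
        have h1 : r • (y - (-(s / r)) • x) = 0 := by
          rw [smul_sub, smul_smul, ← h0]
          have : r * -(s / r) = -s := by field_simp
          rw [this, neg_smul, sub_neg_eq_add, add_comm]
        exact sub_eq_zero.1 ((smul_eq_zero.1 h1).resolve_left hr)
      rw [hy, add_comm x, max_comm]
      exact dep t x _

end Pool.Agent.K7.H13.CL
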