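import Pool.Agent.K7.H13.CL.Orth
import Pool.Agent.Y442.CY.Coef

/-!
# Bounds of the coefficients of a sorted anisotropic cubic form over a local field
-/

set_option autoImplicit false

namespace Pool.Agent.K7.H13.CL

open Pool.Agent.Y214.CY Pool.Agent.Y442.CY

variable {K : Type} [NontriviallyNormedField K] [IsUltrametricDist K] [ProperSpace K]

/-! ### exponents -/

theorem expo' {p : ℝ} (hp : 1 < p) {a b c : ℕ} {v : ℤ}
    (h : ((p : ℝ) ^ (-v)) ^ 3 ≤ (max ((p : ℝ) ^ a)⁻¹ ((p : ℝ) ^ c)⁻¹) ^ 2 * ((p : ℝ) ^ b)⁻¹) :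
    -(3 * v) ≤ 2 * max (-(a : ℤ)) (-(c : ℤ)) - b := by
  have hp1 : (1 : ℝ) < p := hp
  have hp0 : (p : ℝ) ≠ 0 := by positivity
  have e : ∀ m : ℕ, ((p : ℝ) ^ m)⁻¹ = (p : ℝ) ^ (-(m : ℤ)) := by
    intro m
    rw [zpow_neg, zpow_natCast]
  have hm : max ((p : ℝ) ^ (-(a : ℤ))) ((p : ℝ) ^ (-(c : ℤ))) =
      (p : ℝ) ^ (max (-(a : ℤ)) (-(c : ℤ))) :=
    ((zpow_right_mono₀ hp1.le).map_max).symm
  rw [e, e, e, hm, ← zpow_natCast, ← zpow_natCast, ← zpow_mul, ← zpow_mul, ← zpow_add₀ hp0,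
    zpow_le_zpow_iff_right₀ hp1] at h
  push_cast at h
  linarith

/-! ### the theorem -/

theorem ult3' {x y z : K} {M : ℝ} (hx : ‖x‖ ^ 3 ≤ M)
    (hy : ‖y‖ ^ 3 ≤ M) (hz : ‖z‖ ^ 3 ≤ M) : ‖x - y - z‖ ^ 3 ≤ M := by
  have h1 : ‖x - y - z‖ ≤ max (max ‖x‖ ‖y‖) ‖z‖ := by
    rw [sub_eq_add_neg, sub_eq_add_neg]
    refine (IsUltrametricDist.norm_add_le_max _ _).trans (max_le_max ?_ (norm_neg z).le)
    exact (IsUltrametricDist.norm_add_le_max _ _).trans (max_le_max le_rfl (norm_neg y).le)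
  have h2 : ‖x - y - z‖ ^ 3 ≤ (max (max ‖x‖ ‖y‖) ‖z‖) ^ 3 := by gcongr
  refine h2.trans ?_
  rcases max_choice (max ‖x‖ ‖y‖) ‖z‖ with h | h
  · rw [h]
    rcases max_choice ‖x‖ ‖y‖ with h' | h'
    · rwa [h']
    · rwa [h']
  · rwa [h]

/-- one of the three bounds -/
theorem one' {A B C D b1 b2 : K} {a c : ℝ} (hm : ‖A‖ ≤ max a c)
    (ha : 0 ≤ a) (hc : 0 ≤ c)
    (h : ‖B‖ ^ 3 ≤ ‖A‖ ^ 2 * ‖D‖ ∧ ‖C‖ ^ 3 ≤ ‖A‖ * ‖D‖ ^ 2) (h1 : ‖b1‖ ^ 3 ≤ a ^ 2 * ‖D‖)
    (h2 : ‖b2‖ ^ 3 ≤ c ^ 2 * ‖D‖) : ‖B - b1 - b2‖ ^ 3 ≤ (max a c) ^ 2 * ‖D‖ := by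
  have hD := norm_nonneg D
  apply ult3'
  · refine h.1.trans ?_
    gcongr
  · refine h1.trans ?_
    gcongr
    exact le_max_left _ _
  · refine h2.trans ?_
    gcongr
    exact le_max_right _ _

theorem coef (W : Unif K) (n : ℕ) (t : Fin n → Fin n → Fin n → K)
    (hA : Aniso K t) (ht : ∀ i j k, ¬ (i ≤ j ∧ j ≤ k) → t i j k = 0)
    (hρ : ∀ j, ∃ i : ℕ, i ≤ 2 ∧ ‖t j j j‖ = (W.q ^ i)⁻¹) :
    ∀ i j k, ‖t i j k‖ ^ 3 ≤ ‖t i i i‖ * ‖t j j j‖ * ‖t k k k‖ := by
  have P2 : ∀ i j, i < j → ‖t i i j‖ ^ 3 ≤ ‖t i i i‖ ^ 2 * ‖t j j j‖ ∧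
      ‖t i j j‖ ^ 3 ≤ ‖t i i i‖ * ‖t j j j‖ ^ 2 := by
    intro i j hij
    refine bl (t i i i) (t i i j) (t i j j) (t j j j) fun s r hsr => ?_
    rw [← cubZ hij t ht]
    exact hA _ (Z_ne hij.ne hsr)
  have P3 : ∀ i j k, i < j → j < k → ‖t i j k‖ ^ 3 ≤ ‖t i i i‖ * ‖t j j j‖ * ‖t k k k‖ := by
    intro i j k hij hjk
    have hik := hij.trans hjk
    have ei : cub t (Y i j k 1 0 0) = t i i i := by rw [cubY hij hjk t ht]; ring
    have ej : cub t (Y i j k 0 1 0) = t j j j := by rw [cubY hij hjk t ht]; ring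
    have ek : cub t (Y i j k 0 0 1) = t k k k := by rw [cubY hij hjk t ht]; ring
    -- first
    have a1 : ‖t i j k‖ ^ 3 ≤ (max ‖t i i i‖ ‖t k k k‖) ^ 2 * ‖t j j j‖ := by
      have m : ‖cub t (Y i j k (1 : K) 0 1)‖ ≤ max ‖t i i i‖ ‖t k k k‖ := by
        have := ult t hA (Y i j k 1 0 0) (Y i j k 0 0 1)
        simpa only [Y_add, ei, ek, add_zero, zero_add] using this
      have b := bl (cub t (Y i j k 1 0 1)) (t i i j + t j k k + t i j k)
        (t i j j + t j j k) (t j j j) fun s r hsr => by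
          have e : cub t (Y i j k 1 0 1) * s ^ 3 + (t i i j + t j k k + t i j k) * s ^ 2 * r +
              (t i j j + t j j k) * s * r ^ 2 + t j j j * r ^ 3 = cub t (Y i j k s r s) := by
            rw [cubY hij hjk t ht, cubY hij hjk t ht]
            ring
          rw [e]
          exact hA _ (Y_ne hij.ne hik.ne hjk.ne (by tauto))
      have := one' m (norm_nonneg _) (norm_nonneg _) b (b1 := t i i j) (b2 := t j k k)
        (P2 i j hij).1 (by rw [mul_comm]; exact (P2 j k hjk).2)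
      have e : t i i j + t j k k + t i j k - t i i j - t j k k = t i j k := by ring
      rwa [e] at this
    have a2 : ‖t i j k‖ ^ 3 ≤ (max ‖t i i i‖ ‖t j j j‖) ^ 2 * ‖t k k k‖ := by
      have m : ‖cub t (Y i j k (1 : K) 1 0)‖ ≤ max ‖t i i i‖ ‖t j j j‖ := by
        have := ult t hA (Y i j k 1 0 0) (Y i j k 0 1 0)
        simpa only [Y_add, ei, ej, add_zero, zero_add] using this
      have b := bl (cub t (Y i j k 1 1 0)) (t i i k + t j j k + t i j k)
        (t i k k + t j k k) (t k k k) fun s r hsr => by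
          have e : cub t (Y i j k 1 1 0) * s ^ 3 + (t i i k + t j j k + t i j k) * s ^ 2 * r +
              (t i k k + t j k k) * s * r ^ 2 + t k k k * r ^ 3 = cub t (Y i j k s s r) := by
            rw [cubY hij hjk t ht, cubY hij hjk t ht]
            ring
          rw [e]
          exact hA _ (Y_ne hij.ne hik.ne hjk.ne (by tauto))
      have := one' m (norm_nonneg _) (norm_nonneg _) b (b1 := t i i k) (b2 := t j j k)
        (P2 i k hik).1 (P2 j k hjk).1
      have e : t i i k + t j j k + t i j k - t i i k - t j j k = t i j k := by ring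
      rwa [e] at this
    have a3 : ‖t i j k‖ ^ 3 ≤ (max ‖t j j j‖ ‖t k k k‖) ^ 2 * ‖t i i i‖ := by
      have m : ‖cub t (Y i j k (0 : K) 1 1)‖ ≤ max ‖t j j j‖ ‖t k k k‖ := by
        have := ult t hA (Y i j k 0 1 0) (Y i j k 0 0 1)
        simpa only [Y_add, ej, ek, add_zero, zero_add] using this
      have b := bl (cub t (Y i j k 0 1 1)) (t i j j + t i k k + t i j k)
        (t i i j + t i i k) (t i i i) fun s r hsr => by
          have e : cub t (Y i j k 0 1 1) * s ^ 3 + (t i j j + t i k k + t i j k) * s ^ 2 * r +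
              (t i i j + t i i k) * s * r ^ 2 + t i i i * r ^ 3 = cub t (Y i j k r s s) := by
            rw [cubY hij hjk t ht, cubY hij hjk t ht]
            ring
          rw [e]
          exact hA _ (Y_ne hij.ne hik.ne hjk.ne (by tauto))
      have := one' m (norm_nonneg _) (norm_nonneg _) b (b1 := t i j j) (b2 := t i k k)
        (by rw [mul_comm]; exact (P2 i j hij).2) (by rw [mul_comm]; exact (P2 i k hik).2)
      have e : t i j j + t i k k + t i j k - t i j j - t i k k = t i j k := by ring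
      rwa [e] at this
    obtain ⟨a, ha, ra⟩ := hρ i
    obtain ⟨b, hb, rb⟩ := hρ j
    obtain ⟨c, hc, rc⟩ := hρ k
    by_cases h0 : t i j k = 0
    · rw [h0, norm_zero, zero_pow (by norm_num)]
      positivity
    obtain ⟨v, hv⟩ := W.val _ h0
    rw [hv, ra, rc, rb] at a1
    rw [hv, ra, rc, rb] at a2
    rw [hv, ra, rc, rb] at a3
    have n1 := expo' W.one_lt a1
    have n2 := expo' W.one_lt a2
    have n3 := expo' W.one_lt a3
    have n4 := num ha hb hc n1 n2 n3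
    have hpr : 1 < W.q := W.one_lt
    have hp0 : W.q ≠ 0 := (zero_lt_one.trans hpr).ne'
    have hpp : 0 < W.q := zero_lt_one.trans hpr
    have e : ∀ m : ℕ, (W.q ^ m)⁻¹ = W.q ^ (-(m : ℤ)) := by
      intro m
      rw [zpow_neg, zpow_natCast]
    rw [hv, ra, rb, rc, e, e, e, ← zpow_natCast, ← zpow_mul, ← zpow_add₀ hp0, ← zpow_add₀ hp0,
      zpow_le_zpow_iff_right₀ hpr]
    push_cast
    linarith
  intro i j k
  by_cases hs : i ≤ j ∧ j ≤ k
  · rcases hs.1.lt_or_eq with h | h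
    · rcases hs.2.lt_or_eq with h' | h'
      · exact P3 i j k h h'
      · subst h'
        refine (P2 i j h).2.trans (le_of_eq (by ring))
    · subst h
      rcases hs.2.lt_or_eq with h' | h'
      · refine (P2 i k h').1.trans (le_of_eq (by ring))
      · subst h'
        exact le_of_eq (by ring)
  · rw [ht i j k hs, norm_zero, zero_pow (by norm_num)]
    positivity

end Pool.Agent.K7.H13.CL
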