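import Pool.Agent.K7.H13.CL.Res
import Pool.Agent.K7.H13.CL.Orth

/-!
# Finite extensions of local fields: the residue degree divides the degree
-/

set_option autoImplicit false

namespace Pool.Agent.K7.H13.CL

open Polynomial

section
variable (K L : Type) [NontriviallyNormedField K] [IsUltrametricDist K]
  [NontriviallyNormedField L] [IsUltrametricDist L] [NormedAlgebra K L]

/-- the map of the unit balls -/
noncomputable def jj : OO K →+* OO L :=
  (algebraMap K L).restrict (OO K) (OO L) fun x hx => by
    rw [mem_OO, norm_algebraMap']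
    exact hx

variable {K L} in
theorem jj_coe (x : OO K) : ((jj K L x : OO L) : L) = algebraMap K L (x : K) := rfl

/-- the map of the residue fields -/
noncomputable def rr : KK K →+* KK L :=
  Ideal.quotientMap (mm L) (jj K L) (by
    intro x hx
    rw [Ideal.mem_comap, mem_mm, jj_coe, norm_algebraMap']
    exact hx)

variable {K L} in
theorem rr_red (x : OO K) : rr K L (red K x) = red L (jj K L x) := rfl

/-- the residue field extension -/
@[reducible] noncomputable def resAlg : Algebra (KK K) (KK L) := (rr K L).toAlgebra

/-- The residue degree divides the degree. -/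
theorem resdeg [ProperSpace K] [FiniteDimensional K L] :
    @Module.finrank (KK K) (KK L) _ _ (resAlg K L).toModule ∣ Module.finrank K L := by
  have hprop : ProperSpace L := FiniteDimensional.proper K L
  let : Algebra (KK K) (KK L) := resAlg K L
  have hfin : Module.Finite (KK K) (KK L) := inferInstance
  obtain ⟨β, hβ⟩ := Field.exists_primitive_element (KK K) (KK L)
  have hdeg : (minpoly (KK K) β).natDegree = Module.finrank (KK K) (KK L) :=
    (Field.primitive_element_iff_minpoly_natDegree_eq (KK K) β).1 hβ
  have hint : IsIntegral (KK K) β := Algebra.IsIntegral.isIntegral β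
  have hsep : (minpoly (KK K) β).Separable := Algebra.IsSeparable.isSeparable (KK K) β
  have hder : aeval β (derivative (minpoly (KK K) β)) ≠ 0 :=
    hsep.aeval_derivative_ne_zero (minpoly.aeval _ _)
  obtain ⟨P, hP1, hP2, hP3⟩ := lifts_and_degree_eq_and_monic (f := red K)
    (p := minpoly (KK K) β)
    (by
      rw [Polynomial.lifts_iff_coeff_lifts]
      intro n
      exact red_surj K _) (minpoly.monic hint)
  obtain ⟨b, hb⟩ := red_surj L β
  have hcomp : ∀ (Q : (OO K)[X]) (a : OO L), red L ((Q.map (jj K L)).eval a) =
      aeval (red L a) (Q.map (red K)) := by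
    intro Q a
    rw [← Polynomial.eval_map_apply, Polynomial.map_map, Polynomial.aeval_def,
      Polynomial.eval₂_eq_eval_map, Polynomial.map_map]
    rfl
  obtain ⟨α, hα0, hαb⟩ := hensel (P.map (jj K L)) b
    (by rw [hcomp, hb, hP1, minpoly.aeval])
    (by
      rw [Polynomial.derivative_map, hcomp, hb, ← Polynomial.derivative_map, hP1]
      exact hder)
  rw [hb] at hαb
  -- the minimal polynomial of `α`
  have hαint : IsIntegral K (α : L) := Algebra.IsIntegral.isIntegral _
  have hroot : aeval (α : L) (P.map (OO K).subtype) = 0 := by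
    have h1 : (((P.map (jj K L)).eval α : OO L) : L) = aeval (α : L) (P.map (OO K).subtype) := by
      rw [Polynomial.aeval_def, Polynomial.eval₂_eq_eval_map, Polynomial.map_map]
      have h2 : (((P.map (jj K L)).eval α : OO L) : L) =
          ((P.map (jj K L)).map (OO L).subtype).eval (α : L) :=
        (Polynomial.eval_map_apply (p := P.map (jj K L)) (OO L).subtype α).symm
      rw [h2, Polynomial.map_map]
      rfl
    rw [← h1, hα0]
    rfl
  have hPdeg : P.natDegree = Module.finrank (KK K) (KK L) := by
    rw [← hdeg]
    exact natDegree_eq_of_degree_eq hP2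
  have hle : (minpoly K (α : L)).natDegree ≤ Module.finrank (KK K) (KK L) := by
    have h1 := natDegree_le_of_dvd (minpoly.dvd K (α : L) hroot) (hP3.map _).ne_zero
    rwa [hP3.natDegree_map, hPdeg] at h1
  have hge : Module.finrank (KK K) (KK L) ≤ (minpoly K (α : L)).natDegree := by
    obtain ⟨h, hh⟩ : ∃ h, h = minpoly K (α : L) := ⟨_, rfl⟩
    have hh0 : h ≠ 0 := hh ▸ minpoly.ne_zero hαint
    obtain ⟨i0, hi0, hmax⟩ := Finset.exists_max_image h.support (fun i => ‖h.coeff i‖)
      (Polynomial.support_nonempty.2 hh0)
    obtain ⟨a, ha⟩ : ∃ a, a = h.coeff i0 := ⟨_, rfl⟩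
    have ha0 : a ≠ 0 := ha ▸ (mem_support_iff.1 hi0)
    have hco : ∀ i, ‖(C a⁻¹ * h).coeff i‖ ≤ 1 := by
      intro i
      rw [coeff_C_mul, norm_mul, norm_inv]
      by_cases hi : i ∈ h.support
      · have h1 := hmax i hi
        rw [← ha] at h1
        rw [inv_mul_le_iff₀ (norm_pos_iff.2 ha0), mul_one]
        exact h1
      · rw [notMem_support_iff.1 hi, norm_zero, mul_zero]
        exact zero_le_one
    obtain ⟨H, hH⟩ : C a⁻¹ * h ∈ Polynomial.lifts (OO K).subtype := by
      rw [Polynomial.lifts_iff_coeff_lifts]
      intro i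
      exact ⟨⟨_, hco i⟩, rfl⟩
    rw [Polynomial.coe_mapRingHom] at hH
    have hHi0 : H.coeff i0 = 1 := by
      apply Subtype.ext
      have h1 := congrArg (fun q : K[X] => q.coeff i0) hH
      simp only [coeff_map, coeff_C_mul] at h1
      rw [← ha, inv_mul_cancel₀ ha0] at h1
      exact h1
    have hHb : H.map (red K) ≠ 0 := by
      intro h1
      have h2 := congrArg (fun q : (KK K)[X] => q.coeff i0) h1
      simp only [coeff_map, hHi0, map_one, coeff_zero] at h2
      exact one_ne_zero h2
    have hHroot : aeval β (H.map (red K)) = 0 := by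
      rw [← hαb, ← hcomp]
      have h1 : (((H.map (jj K L)).eval α : OO L) : L) = 0 := by
        have h2 : (((H.map (jj K L)).eval α : OO L) : L) =
            ((H.map (jj K L)).map (OO L).subtype).eval (α : L) :=
          (Polynomial.eval_map_apply (p := H.map (jj K L)) (OO L).subtype α).symm
        have h3 : ((H.map (jj K L)).map (OO L).subtype) =
            (H.map (OO K).subtype).map (algebraMap K L) := by
          rw [Polynomial.map_map, Polynomial.map_map]
          rfl
        rw [h2, h3, hH, hh, Polynomial.map_mul, eval_mul, Polynomial.eval_map_algebraMap,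
          Polynomial.eval_map_algebraMap, minpoly.aeval, mul_zero]
      have h4 : (H.map (jj K L)).eval α = 0 := Subtype.ext h1
      rw [h4, map_zero]
    have h5 := minpoly.degree_le_of_ne_zero (KK K) β hHb hHroot
    have h6 : (minpoly (KK K) β).natDegree ≤ (H.map (red K)).natDegree :=
      natDegree_le_natDegree h5
    rw [hdeg] at h6
    refine h6.trans (natDegree_map_le.trans ?_)
    have h7 : H.natDegree = (H.map (OO K).subtype).natDegree :=
      (natDegree_map_eq_of_injective Subtype.val_injective H).symm
    rw [h7, hH, ← hh]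
    exact natDegree_C_mul_le _ _
  have h1 : Module.finrank K (IntermediateField.adjoin K {(α : L)}) =
      Module.finrank (KK K) (KK L) := by
    rw [IntermediateField.adjoin.finrank hαint]
    exact le_antisymm hle hge
  rw [← h1]
  exact ⟨_, (Module.finrank_mul_finrank K (IntermediateField.adjoin K {(α : L)}) L).symm⟩

/-- The absolute values of an extension of degree `m` are `m`-th roots of those of the field. -/
theorem norm_pow_finrank [CompleteSpace K] [FiniteDimensional K L] (W : Unif K) (x : L)
    (hx : x ≠ 0) : ∃ n : ℤ, ‖x‖ ^ Module.finrank K L = W.q ^ (-n) := by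
  have hint : IsIntegral K x := Algebra.IsIntegral.isIntegral _
  have h1 := spectralNorm.spectralNorm_eq_norm_coeff_zero_rpow K L x
  rw [← NormedAlgebra.norm_eq_spectralNorm] at h1
  obtain ⟨d, hd⟩ : ∃ d, d = (minpoly K x).natDegree := ⟨_, rfl⟩
  have hd0 : d ≠ 0 := by
    rw [hd]
    exact (minpoly.natDegree_pos hint).ne'
  have h2 : ‖x‖ ^ d = ‖(minpoly K x).coeff 0‖ := by
    rw [h1, ← hd, one_div]
    exact Real.rpow_inv_natCast_pow (norm_nonneg _) hd0
  have h3 : (minpoly K x).coeff 0 ≠ 0 := minpoly.coeff_zero_ne_zero hint hx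
  obtain ⟨n, hn⟩ := W.val _ h3
  have h4 : d ∣ Module.finrank K L := by
    rw [hd, ← IntermediateField.adjoin.finrank hint]
    exact ⟨_, (Module.finrank_mul_finrank K (IntermediateField.adjoin K {x}) L).symm⟩
  obtain ⟨k, hk⟩ := h4
  refine ⟨n * k, ?_⟩
  rw [hk, pow_mul, h2, hn, ← zpow_natCast, ← zpow_mul]
  congr 1
  ring

end

end Pool.Agent.K7.H13.CL
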