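import Pool.Agent.Y697.C13.Main
import Pool.Agent.Y716.FF.Final

/-!
# Almost all forms over `F[t]` are smooth, in every characteristic
-/

set_option autoImplicit false

namespace Pool.Agent.K7.H13.CL.Sm

open Pool.Agent.Y716.C Pool.Agent.Y716.Q MvPolynomial Pool.Agent.Y697.C13
open scoped Classical

universe u

/-- the form is smooth over the algebraic closure of the fraction field of `R` -/
def SmoothR {ι : Type*} [Fintype ι] {R : Type*} [CommRing R] (f : MvPolynomial ι R) : Prop :=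
  ∀ (K : Type) [Field K] [Algebra R K], Function.Injective (algebraMap R K) → ∀ x : ι → K, x ≠ 0 →
    MvPolynomial.aeval x f = 0 → ∃ i, MvPolynomial.aeval x (MvPolynomial.pderiv i f) ≠ 0

section ker

variable (k : Type u) [Field k]

lemma exists_ker {σ τ : Type u} [Fintype σ] [Fintype τ] (h : Fintype.card τ < Fintype.card σ)
    (φ : MvPolynomial σ k →ₐ[k] MvPolynomial τ k) : ∃ D, D ≠ 0 ∧ φ D = 0 := by
  by_contra hne
  push Not at hne
  have hinj : Function.Injective φ := by
    rw [injective_iff_map_eq_zero]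
    intro D hD
    by_contra h0
    exact hne D h0 hD
  have h1 := _root_.trdeg_le_of_injective φ hinj
  rw [MvPolynomial.trdeg_of_isDomain, MvPolynomial.trdeg_of_isDomain, Cardinal.lift_le,
    Cardinal.mk_fintype, Cardinal.mk_fintype] at h1
  have h2 : Fintype.card σ ≤ Fintype.card τ := by exact_mod_cast h1
  omega

end ker

section forms
variable {ι : Type u} [Fintype ι] {R : Type*} [CommRing R]

lemma coeff_out {d : ℕ} {f : MvPolynomial ι R} (hf : f.IsHomogeneous d) {m : ι →₀ ℕ}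
    (hm : m ∉ mons ι d) : f.coeff m = 0 := by
  by_contra hne
  exact hm (mem_mons.mpr (homog_sum_eq hf hne))

lemma eq_sum {d : ℕ} {f : MvPolynomial ι R} (hf : f.IsHomogeneous d) :
    f = ∑ m ∈ mons ι d, monomial m (f.coeff m) := by
  apply MvPolynomial.ext
  intro m
  rw [coeff_sum]
  simp only [coeff_monomial]
  rw [Finset.sum_ite_eq']
  split_ifs with h
  · rfl
  · exact coeff_out hf h

lemma aeval_mon {K : Type*} [CommRing K] [Algebra R K] (x : ι → K) (m : ι →₀ ℕ) (a : R) :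
    aeval x (monomial m a) = algebraMap R K a * mv x m := by
  rw [aeval_monomial, Finsupp.prod_fintype _ _ (fun i => pow_zero _)]
  rfl

lemma aeval_f {K : Type*} [CommRing K] [Algebra R K] {d : ℕ} {f : MvPolynomial ι R}
    (hf : f.IsHomogeneous d)
    (x : ι → K) : aeval x f = ∑ m ∈ mons ι d, algebraMap R K (f.coeff m) * mv x m := by
  conv_lhs => rw [eq_sum hf]
  rw [map_sum]
  exact Finset.sum_congr rfl fun m _ => aeval_mon x m _

lemma aeval_df {K : Type*} [CommRing K] [Algebra R K] {d : ℕ} {f : MvPolynomial ι R}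
    (hf : f.IsHomogeneous d)
    (x : ι → K) (i : ι) :
    aeval x (pderiv i f) = ∑ m ∈ mons ι d, algebraMap R K (f.coeff m) * dv x i m := by
  conv_lhs => rw [eq_sum hf]
  rw [map_sum, map_sum]
  refine Finset.sum_congr rfl fun m _ => ?_
  rw [pderiv_monomial, aeval_mon]
  unfold dv
  rw [map_mul, map_natCast]
  ring

variable (k : Type u) [Field k] {s : ℕ} (e : Fin s → ℕ) (r : ι) (j0 : Fin s)

/-- generic parameters -/
noncomputable def UU : Fin s → (ι →₀ ℕ) → MvPolynomial (PS e r j0) k := fun j m =>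
  if h : (⟨j, m⟩ : (_ : Fin s) × (ι →₀ ℕ)) ∈ PS e r j0 ∧ ¬ spec e r j0 j m then X ⟨_, h.1⟩ else 0

/-- generic parameters -/
noncomputable def XX : ι → MvPolynomial (PS e r j0) k := fun i =>
  if h : (⟨j0, eB r (e j0) i⟩ : (_ : Fin s) × (ι →₀ ℕ)) ∈ PS e r j0 ∧ i ≠ r then X ⟨_, h.1⟩ else 1

/-- generic parameters -/
noncomputable def LL : Fin s → MvPolynomial (PS e r j0) k := fun j =>
  if h : (⟨j, eA r (e j)⟩ : (_ : Fin s) × (ι →₀ ℕ)) ∈ PS e r j0 then X ⟨_, h⟩ else 1

/-- the generic solution -/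
noncomputable def phi : MvPolynomial (VS (ι := ι) e) k →ₐ[k] MvPolynomial (PS e r j0) k :=
  aeval fun v => c2 e r j0 (UU k e r j0) (XX k e r j0) (LL k e r j0) v.1.1 v.1.2

section point
variable {k}
variable {K : Type*} [Field K] [Algebra k K] (c : Fin s → (ι →₀ ℕ) → K)
  (x : ι → K) (l : Fin s → K)

lemma pt_UU (hc : ∀ j m, m ∉ mons ι (e j + 2) → c j m = 0) (j : Fin s) (m : ι →₀ ℕ) :
    aeval (pt e r j0 c x l) (UU k e r j0 j m) = uu e r j0 c j m := by
  unfold UU uu
  by_cases h1 : spec e r j0 j m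
  · rw [if_pos h1, dif_neg (fun h => h.2 h1), map_zero]
  · rw [if_neg h1]
    by_cases h2 : m ∈ mons ι (e j + 2)
    · have h3 : (⟨j, m⟩ : (_ : Fin s) × (ι →₀ ℕ)) ∈ PS e r j0 := by
        refine mem_PS e r j0 h2 ?_
        rintro ⟨h3, h4⟩
        subst h3
        exact h1 (Or.inl h4)
      rw [dif_pos ⟨h3, h1⟩, aeval_X]
      unfold pt
      rw [if_neg (fun h => h1 (Or.inl h)), dif_neg (fun h => h1 (Or.inr h))]
    · have h3 : (⟨j, m⟩ : (_ : Fin s) × (ι →₀ ℕ)) ∉ PS e r j0 := by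
        intro h
        exact h2 ((mem_VS e).1 (Finset.mem_of_mem_erase h))
      rw [dif_neg (fun h => h3 h.1), map_zero, hc j m h2]

lemma pt_XX (hx : x r = 1) (i : ι) :
    aeval (pt e r j0 c x l) (XX k e r j0 i) = x i := by
  unfold XX
  by_cases h1 : i = r
  · rw [dif_neg (fun h => h.2 h1), map_one, h1, hx]
  · have h3 : (⟨j0, eB r (e j0) i⟩ : (_ : Fin s) × (ι →₀ ℕ)) ∈ PS e r j0 := by
      refine mem_PS e r j0 (eB_mem r _ i) ?_
      rintro ⟨_, h4⟩
      exact eA_ne _ _ h1 h4.symm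
    rw [dif_pos ⟨h3, h1⟩, aeval_X]
    have h4 : isB e r j0 j0 (eB r (e j0) i) i := ⟨h1, rfl, rfl⟩
    have h5 : ∃ i', isB e r j0 j0 (eB r (e j0) i) i' := ⟨i, h4⟩
    unfold pt
    rw [if_neg (fun h => eA_ne _ _ h1 h.symm), dif_pos h5,
      isB_unique e r j0 h5.choose_spec h4]

lemma pt_LL (hl : l j0 = 1) (j : Fin s) :
    aeval (pt e r j0 c x l) (LL k e r j0 j) = l j := by
  unfold LL
  by_cases h1 : j = j0
  · subst h1
    have h3 : (⟨j, eA r (e j)⟩ : (_ : Fin s) × (ι →₀ ℕ)) ∉ PS e r j := by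
      unfold PS
      exact Finset.notMem_erase _ _
    rw [dif_neg h3, map_one, hl]
  · have h3 : (⟨j, eA r (e j)⟩ : (_ : Fin s) × (ι →₀ ℕ)) ∈ PS e r j0 :=
      mem_PS e r j0 (eA_mem r _) fun h => h1 h.1
    rw [dif_pos h3, aeval_X]
    unfold pt
    exact if_pos rfl

lemma pt_phi (hc : ∀ j m, m ∉ mons ι (e j + 2) → c j m = 0) (hx : x r = 1) (hl : l j0 = 1)
    (hE : ∀ j, ∑ m ∈ mons ι (e j + 2), c j m * mv x m = 0)
    (hG : ∀ i, ∑ j, l j * ∑ m ∈ mons ι (e j + 2), c j m * dv x i m = 0)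
    (D : MvPolynomial (VS (ι := ι) e) k) (hD : phi k e r j0 D = 0) :
    aeval (fun v : VS (ι := ι) e => c v.1.1 v.1.2) D = 0 := by
  have h1 : (aeval (pt e r j0 c x l)).comp (phi k e r j0) =
      aeval (fun v : VS (ι := ι) e => c v.1.1 v.1.2) := by
    apply MvPolynomial.algHom_ext
    intro v
    rw [AlgHom.comp_apply]
    unfold phi
    rw [aeval_X, aeval_X]
    have h2 := map_c2 e r j0 ((aeval (pt e r j0 c x l) : MvPolynomial (PS e r j0) k →ₐ[k] K) :
      MvPolynomial (PS e r j0) k →+* K) (UU k e r j0) (XX k e r j0) (LL k e r j0) v.1.1 v.1.2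
    rw [RingHom.coe_coe] at h2
    rw [h2]
    simp only [pt_XX e r j0 c x l hx, pt_LL e r j0 c x l hl, pt_UU e r j0 c x l hc]
    exact c2_eq e r j0 c x l hx hl hE hG _ _
  rw [← h1, AlgHom.comp_apply, hD, map_zero]

end point

theorem exists_D [Algebra k R] (n : ℕ) : ∃ D : MvPolynomial (VS (ι := ι) (fun _ : Fin 1 => n)) k,
    D ≠ 0 ∧ ∀ f : MvPolynomial ι R, f.IsHomogeneous (n + 2) → ¬ SmoothR f →
      aeval (fun v : VS (ι := ι) (fun _ : Fin 1 => n) => f.coeff v.1.2) D = 0 := by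
  set e : Fin 1 → ℕ := fun _ => n with he
  have h0 : ∀ r : ι, ∃ D : MvPolynomial (VS (ι := ι) e) k, D ≠ 0 ∧
      phi k e r 0 D = 0 := fun r => exists_ker k (card_PS e r 0) (phi k e r 0)
  choose D hD0 hD using h0
  refine ⟨∏ p, D p, Finset.prod_ne_zero_iff.2 fun p _ => hD0 p, ?_⟩
  intro f hf hns
  unfold SmoothR at hns
  push Not at hns
  obtain ⟨K, _, _, hinj, x, hx, hE, hG⟩ := hns
  obtain ⟨r, hr⟩ := Function.ne_iff.1 hx
  rw [Pi.zero_apply] at hr
  let _ : Algebra k K := ((algebraMap R K).comp (algebraMap k R)).toAlgebra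
  have hst : IsScalarTower k R K := IsScalarTower.of_algebraMap_eq (fun _ => rfl)
  rw [map_prod]
  refine Finset.prod_eq_zero (Finset.mem_univ r) ?_
  set t : K := (x r)⁻¹ with ht
  have ht0 : t ≠ 0 := inv_ne_zero hr
  set x' : ι → K := fun i => t * x i with hx'
  have h1 := pt_phi e r 0 (fun _ m => algebraMap R K (f.coeff m)) x' (fun _ => 1)
    (fun j m hm => by rw [coeff_out hf hm, map_zero])
    (by rw [hx']; exact inv_mul_cancel₀ hr)
    rfl
    (fun j => by
      rw [aeval_f hf] at hE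
      have h3 : ∀ m ∈ mons ι (e j + 2), algebraMap R K (f.coeff m) * mv x' m =
          t ^ (e j + 2) * (algebraMap R K (f.coeff m) * mv x m) := by
        intro m hm
        rw [hx', mv_smul, mem_mons.1 hm]
        ring
      rw [Finset.sum_congr rfl h3, ← Finset.mul_sum, hE, mul_zero])
    (fun i => by
      have h2 := hG i
      rw [aeval_df hf] at h2
      have h4 : ∀ m ∈ mons ι (n + 2), algebraMap R K (f.coeff m) * dv x' i m =
            t ^ (n + 1) * (algebraMap R K (f.coeff m) * dv x i m) := by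
          intro m hm
          rw [hx', dv_smul t x i n m hm]
          ring
      refine Finset.sum_eq_zero fun j _ => ?_
      rw [one_mul]
      change ∑ m ∈ mons ι (n + 2), _ = 0
      rw [Finset.sum_congr rfl h4, ← Finset.mul_sum, h2, mul_zero])
    (D r) (hD r)
  have h2 : (algebraMap R K) (aeval (fun v : VS (ι := ι) e => f.coeff v.1.2) (D r)) = 0 := by
    rw [← h1]
    exact (MvPolynomial.aeval_algebraMap_apply (A := R) (B := K)
      (fun v : VS (ι := ι) e => f.coeff v.1.2) (D r)).symm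
  exact (map_eq_zero_iff _ hinj).1 h2

end forms


section count

open Pool.Agent.Y716.FF Polynomial

lemma sz {F : Type} [Field F] [Finite F] {σ : Type} [Fintype σ] [DecidableEq σ]
    (D : MvPolynomial σ F)
    (hD : D ≠ 0) : ∃ C : ℝ, 0 ≤ C ∧
    ∀ A : ℕ, (((Fintype.piFinset (fun _ : σ => polyLT F A)).filter
      (fun c => MvPolynomial.aeval c D = 0)).card : ℝ) * (Nat.card F : ℝ) ^ A ≤
      C * ((Nat.card F : ℝ) ^ A) ^ Fintype.card σ := by
  set ε := Fintype.equivFin σ with hε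
  set D' : MvPolynomial (Fin (Fintype.card σ)) F[X] :=
    MvPolynomial.rename ε (MvPolynomial.map (algebraMap F F[X]) D) with hD'
  have hD'0 : D' ≠ 0 := by
    intro h
    apply hD
    apply MvPolynomial.map_injective (algebraMap F F[X]) (algebraMap F F[X]).injective
    apply MvPolynomial.rename_injective ε ε.injective
    rw [← hD', h, map_zero, map_zero]
  refine ⟨D'.totalDegree, Nat.cast_nonneg _, fun A => ?_⟩
  set S : Finset F[X] := polyLT F A with hS
  have hScard : S.card = Nat.card F ^ A := card_polyLT A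
  have h1 := MvPolynomial.schwartz_zippel_totalDegree hD'0 S
  have h2 : ((Fintype.piFinset (fun _ : σ => S)).filter
      (fun c => MvPolynomial.aeval c D = 0)).card ≤
      ((Fintype.piFinset (fun _ : Fin (Fintype.card σ) => S)).filter
        (fun f => MvPolynomial.eval f D' = 0)).card := by
    apply Finset.card_le_card_of_injOn (fun c i => c (ε.symm i))
    · intro c hc
      rw [Finset.mem_coe, Finset.mem_filter, Fintype.mem_piFinset] at hc
      rw [Finset.mem_coe, Finset.mem_filter, Fintype.mem_piFinset]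
      refine ⟨fun i => hc.1 _, ?_⟩
      rw [hD', MvPolynomial.eval_rename, MvPolynomial.eval_map]
      have h3 : (fun i => c (ε.symm i)) ∘ ε = c := by
        funext v
        simp
      rw [h3]
      exact hc.2
    · intro c _ c' _ h
      ext v : 1
      have := congrFun h (ε v)
      simpa only [Equiv.symm_apply_apply] using this
  have hq : 0 < Nat.card F := Nat.card_pos
  have h3 : (((Fintype.piFinset (fun _ : Fin (Fintype.card σ) => S)).filter
        (fun f => MvPolynomial.eval f D' = 0)).card : ℚ≥0) * (Nat.card F : ℚ≥0) ^ A ≤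
        D'.totalDegree * ((Nat.card F : ℚ≥0) ^ A) ^ Fintype.card σ := by
    rw [hScard] at h1
    rw [div_le_div_iff₀ (by positivity) (by positivity)] at h1
    push_cast at h1 ⊢
    exact h1
  have h4 : (((Fintype.piFinset (fun _ : Fin (Fintype.card σ) => S)).filter
        (fun f => MvPolynomial.eval f D' = 0)).card) * Nat.card F ^ A ≤
        D'.totalDegree * (Nat.card F ^ A) ^ Fintype.card σ := by
    exact_mod_cast h3
  have h5 : ((((Fintype.piFinset (fun _ : Fin (Fintype.card σ) => S)).filter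
        (fun f => MvPolynomial.eval f D' = 0)).card : ℕ) : ℝ) * (Nat.card F : ℝ) ^ A ≤
        D'.totalDegree * ((Nat.card F : ℝ) ^ A) ^ Fintype.card σ := by
    exact_mod_cast h4
  refine le_trans ?_ h5
  gcongr

lemma fin_aux {a b t C Q ε : ℝ} (hQ : 0 < Q) (ht : 0 ≤ t) (h1 : a ≤ b) (h3 : b * Q ≤ C * t)
    (h5 : C ≤ ε * Q) : a ≤ ε * t := by
  have h6 : a * Q ≤ (ε * t) * Q := by
    calc a * Q ≤ b * Q := mul_le_mul_of_nonneg_right h1 hQ.le
      _ ≤ C * t := h3
      _ ≤ (ε * Q) * t := mul_le_mul_of_nonneg_right h5 ht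
      _ = _ := by ring
  exact le_of_mul_le_mul_right h6 hQ

lemma card_VS1 (ι : Type) [Fintype ι] (n : ℕ) :
    Fintype.card (VS (ι := ι) (fun _ : Fin 1 => n)) = (mons ι (n + 2)).card := by
  rw [Fintype.card_coe]
  unfold VS
  rw [Finset.card_sigma, Finset.sum_const, Finset.card_univ, Fintype.card_fin, one_smul]

lemma card_forms' (F : Type) [Field F] [Finite F] (ι : Type) [Fintype ι] (n A : ℕ) :
    ((forms F ι (n + 2) A).card : ℝ) =
      ((Nat.card F : ℝ) ^ A) ^ Fintype.card (VS (ι := ι) (fun _ : Fin 1 => n)) := by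
  rw [card_VS1, Pool.Agent.Y716.FF.card_forms]
  push_cast
  unfold mons
  rfl

lemma card_ns (F : Type) [Field F] [Finite F] (ι : Type) [Fintype ι] (n A : ℕ)
    (D : MvPolynomial (VS (ι := ι) (fun _ : Fin 1 => n)) F)
    (hD : ∀ f : MvPolynomial ι F[X], f.IsHomogeneous (n + 2) → ¬ SmoothR f →
      MvPolynomial.aeval (fun v : VS (ι := ι) (fun _ : Fin 1 => n) => f.coeff v.1.2) D = 0) :
    ((forms F ι (n + 2) A).filter (fun f => ¬ SmoothR f)).card ≤
      ((Fintype.piFinset (fun _ : VS (ι := ι) (fun _ : Fin 1 => n) => polyLT F A)).filter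
      (fun c => MvPolynomial.aeval c D = 0)).card := by
  apply Finset.card_le_card_of_injOn (fun f v => f.coeff v.1.2)
  · intro f hf
    rw [Finset.mem_coe, Finset.mem_filter, mem_forms] at hf
    rw [Finset.mem_coe, Finset.mem_filter, Fintype.mem_piFinset]
    exact ⟨fun v => mem_polyLT.2 (hf.1.2 _), hD f hf.1.1 hf.2⟩
  · intro f hf g hg hfg
    rw [Finset.mem_coe, Finset.mem_filter, mem_forms] at hf hg
    apply MvPolynomial.ext
    intro m
    by_cases hm : m ∈ mons ι (n + 2)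
    · exact congrFun hfg ⟨⟨0, m⟩, (mem_VS (fun _ : Fin 1 => n)).2 hm⟩
    · rw [coeff_out hf.1.1 hm, coeff_out hg.1.1 hm]

lemma key_count (F : Type) [Field F] [Finite F] (ι : Type) [Fintype ι] (n : ℕ) :
    ∃ C : ℝ, ∀ A : ℕ, (((forms F ι (n + 2) A).filter (fun f => ¬ SmoothR f)).card : ℝ) *
      (Nat.card F : ℝ) ^ A ≤ C * (forms F ι (n + 2) A).card := by
  obtain ⟨D, hD0, hD⟩ := exists_D (ι := ι) (R := F[X]) F n
  obtain ⟨C, _, hC⟩ := sz D hD0
  refine ⟨C, fun A => ?_⟩
  rw [card_forms']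
  have h1 : (((forms F ι (n + 2) A).filter (fun f => ¬ SmoothR f)).card : ℝ) ≤ _ :=
    Nat.cast_le.2 (card_ns F ι n A D hD)
  have h2 : (0 : ℝ) ≤ (Nat.card F : ℝ) ^ A := pow_nonneg (Nat.cast_nonneg _) _
  exact (mul_le_mul_of_nonneg_right h1 h2).trans (hC A)

lemma fin_gen {q : ℝ} (hq : 1 < q) (a t : ℕ → ℝ) (ht : ∀ A, 0 ≤ t A) (C : ℝ)
    (h : ∀ A, a A * q ^ A ≤ C * t A) (ε : ℝ) (hε : 0 < ε) :
    ∀ᶠ A : ℕ in Filter.atTop, a A ≤ ε * t A := by
  have ht' : Filter.Tendsto (fun A : ℕ => q ^ A) Filter.atTop Filter.atTop :=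
    tendsto_pow_atTop_atTop_of_one_lt hq
  filter_upwards [ht'.eventually_ge_atTop (C / ε)] with A hA
  have h5 : C ≤ ε * q ^ A := by
    rw [div_le_iff₀ hε] at hA
    linarith
  exact fin_aux (pow_pos (by linarith) A) (ht A) le_rfl (h A) h5

/-- Almost all forms of degree `n + 2` over `F[t]` are smooth. -/
theorem smooth_dense (F : Type) [Field F] [Finite F] (ι : Type) [Fintype ι] (n : ℕ) (ε : ℝ)
    (hε : 0 < ε) : ∀ᶠ A : ℕ in Filter.atTop,
    (((forms F ι (n + 2) A).filter (fun f => ¬ SmoothR f)).card : ℝ) ≤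
      ε * (forms F ι (n + 2) A).card := by
  obtain ⟨C, hC⟩ := key_count F ι n
  exact fin_gen (q := (Nat.card F : ℝ)) (by exact_mod_cast Finite.one_lt_card)
    (fun A => (((forms F ι (n + 2) A).filter (fun f => ¬ SmoothR f)).card : ℝ))
    (fun A => ((forms F ι (n + 2) A).card : ℝ)) (fun A => Nat.cast_nonneg _) C hC ε hε

end count

end Pool.Agent.K7.H13.CL.Sm
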