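import Pool.Agent.K7.H13.CL.Vd
import Pool.Agent.K7.H13.CL.Sm
import Pool.Agent.Y716.C.Smooth

/-!
# Zero-cycles of degree one on cubic hypersurfaces over `F_q(t)`
-/

set_option autoImplicit false

namespace Pool.Agent.K7.H13.CL

open Polynomial IsDedekindDomain Filter Topology Pool.Agent.Y716.FF

/-- a zero-cycle of degree one over `K` on the hypersurface `f = 0`, the coefficients of `f` being
mapped to `K` by `φ` -/
def ZC {R ι : Type} [CommRing R] (f : MvPolynomial ι R) (K : Type) [Field K] (φ : R →+* K) :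
    Prop :=
  ∃ (t : ℕ) (L : Fin t → Type) (_ : ∀ i, Field (L i)) (_ : ∀ i, Algebra K (L i)) (m : Fin t → ℤ),
    (∀ i, FiniteDimensional K (L i)) ∧
    (∀ i, ∃ x : ι → L i, x ≠ 0 ∧
      MvPolynomial.eval₂ ((algebraMap K (L i)).comp φ) x f = 0) ∧
    ∑ i, m i * (Module.finrank K (L i) : ℤ) = 1

theorem zc_of_point {R ι : Type} [CommRing R] (f : MvPolynomial ι R) (K : Type) [Field K]
    (φ : R →+* K) (h : ∃ x : ι → K, x ≠ 0 ∧ MvPolynomial.eval₂ φ x f = 0) : ZC f K φ := by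
  obtain ⟨x, hx0, hx⟩ := h
  refine ⟨1, fun _ => K, fun _ => inferInstance, fun _ => inferInstance, fun _ => 1,
    fun _ => inferInstance, fun _ => ⟨x, hx0, ?_⟩, ?_⟩
  · rw [Algebra.algebraMap_self, RingHom.id_comp]
    exact hx
  · simp

theorem point_of_zc {R ι : Type} [CommRing R] (f : MvPolynomial ι R) (hf : f.IsHomogeneous 3)
    (K : Type) [Field K] (φ : R →+* K)
    (hcor : ∀ (L : Type) [Field L] [Algebra K L] [FiniteDimensional K L],
      ¬ 3 ∣ Module.finrank K L → ∀ g : MvPolynomial ι K, g.IsHomogeneous 3 → ∀ x : ι → L, x ≠ 0 →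
      MvPolynomial.aeval x g = 0 → ∃ y : ι → K, y ≠ 0 ∧ MvPolynomial.aeval y g = 0)
    (h : ZC f K φ) : ∃ x : ι → K, x ≠ 0 ∧ MvPolynomial.eval₂ φ x f = 0 := by
  obtain ⟨t, L, hF, hA, m, hfd, hx, hsum⟩ := h
  have h1 : ∃ i, ¬ 3 ∣ Module.finrank K (L i) := by
    by_contra hcon
    push Not at hcon
    have h2 : (3 : ℤ) ∣ ∑ i, m i * (Module.finrank K (L i) : ℤ) := by
      apply Finset.dvd_sum
      intro i _
      exact Dvd.dvd.mul_left (by exact_mod_cast hcon i) _
    rw [hsum] at h2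
    norm_num at h2
  obtain ⟨i, hi⟩ := h1
  obtain ⟨x, hx0, hx1⟩ := hx i
  have h3 : MvPolynomial.aeval x (MvPolynomial.map φ f) = 0 := by
    rw [MvPolynomial.aeval_def, MvPolynomial.eval₂_map]
    exact hx1
  obtain ⟨y, hy0, hy⟩ := hcor (L i) hi (MvPolynomial.map φ f) (hf.map φ) x hx0 h3
  refine ⟨y, hy0, ?_⟩
  rw [MvPolynomial.aeval_def, MvPolynomial.eval₂_map, Algebra.algebraMap_self,
    RingHom.id_comp] at hy
  exact hy

/-- zero-cycles of degree one over all completions of `F(t)` -/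
def LocZC {F : Type} [Field F] {ι : Type} (f : MvPolynomial ι F[X]) : Prop :=
  (∀ v : HeightOneSpectrum F[X],
    ZC f (v.adicCompletion (RatFunc F)) (algebraMap F[X] (v.adicCompletion (RatFunc F)))) ∧
  ZC f (LaurentSeries F) (Pool.Agent.Y241.toInfty F)

theorem locZC_iff {F : Type} [Field F] [Finite F] {ι : Type} [Fintype ι]
    (f : MvPolynomial ι F[X]) (hf : f.IsHomogeneous 3) : LocZC f ↔ ELS f := by
  unfold LocZC ELS
  refine and_congr (forall_congr' fun v => ?_) ?_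
  · refine ⟨fun h => ?_, fun h => ?_⟩
    · obtain ⟨x, hx0, hx⟩ := point_of_zc f hf _ _
        (fun L _ _ _ h3 g hg x hx hx0 => coray_adic F v L h3 g hg x hx hx0) h
      exact ⟨x, hx0, hx⟩
    · obtain ⟨x, hx0, hx⟩ := h
      exact zc_of_point f _ _ ⟨x, hx0, hx⟩
  · exact ⟨fun h => point_of_zc f hf _ _
      (fun L _ _ _ h3 g hg x hx hx0 => coray_laurent F L h3 g hg x hx hx0) h,
      fun h => zc_of_point f _ _ h⟩

open Sm in
theorem main {F : Type} [Field F] [Finite F] (n : ℕ) (hn : 3 ≤ n) :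
    Tendsto (fun A : ℕ =>
      (({f : MvPolynomial (Fin (n + 1)) F[X] | IsForm 3 A f ∧ SmoothR f ∧ SolK f} : Set _).ncard : ℝ) /
      (({f : MvPolynomial (Fin (n + 1)) F[X] | IsForm 3 A f ∧ SmoothR f ∧ LocZC f} : Set _).ncard : ℝ))
      atTop (𝓝 1) ∧
    ∃ c : ℝ, 0 < c ∧ ∀ᶠ A : ℕ in Filter.atTop,
      c * (({f : MvPolynomial (Fin (n + 1)) F[X] | IsForm 3 A f} : Set _).ncard : ℝ) ≤
      (({f : MvPolynomial (Fin (n + 1)) F[X] | IsForm 3 A f ∧ SmoothR f ∧ SolK f} : Set _).ncard : ℝ) := by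
  classical
  have hc1 : 1 + 3 ≤ Fintype.card (Fin (n + 1)) := by rw [Fintype.card_fin]; omega
  have hc2 : 4 ≤ Fintype.card (Fin (n + 1)) := by rw [Fintype.card_fin]; omega
  have hmt := main_tendsto (F := F) (ι := Fin (n + 1)) 1 hc1 hc2
  obtain ⟨c, hc0, hc⟩ := main_positive (F := F) (ι := Fin (n + 1)) 1 hc1 hc2
  have hall : ∀ A : ℕ, ({f : MvPolynomial (Fin (n + 1)) F[X] | IsForm (1 + 2) A f} : Set _).ncard =
      (forms F (Fin (n + 1)) (1 + 2) A).card := by
    intro A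
    rw [← Set.ncard_coe_finset]
    congr 1
    ext f
    simp [mem_forms]
  have hns := smooth_dense F (Fin (n + 1)) 1
  have hset : ∀ A : ℕ, {f : MvPolynomial (Fin (n + 1)) F[X] | IsForm (1 + 2) A f ∧ SmoothR f ∧ LocZC f} =
      {f : MvPolynomial (Fin (n + 1)) F[X] | IsForm (1 + 2) A f ∧ SmoothR f ∧ ELS f} := by
    intro A
    ext f
    exact and_congr_right fun h1 => and_congr_right fun _ => locZC_iff f h1.1
  have hT : ∀ A : ℕ, (0 : ℝ) < ((forms F (Fin (n + 1)) (1 + 2) A).card : ℝ) := by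
    intro A
    have : 0 < (forms F (Fin (n + 1)) (1 + 2) A).card :=
      Finset.card_pos.mpr ⟨0, mem_forms.mpr IsForm.zero⟩
    exact_mod_cast this
  have hle : ∀ A : ℕ, (((forms F (Fin (n + 1)) (1 + 2) A).filter (fun f => SolK f)).card : ℝ) -
      (((forms F (Fin (n + 1)) (1 + 2) A).filter (fun f => ¬ SmoothR f)).card : ℝ) ≤
      (((forms F (Fin (n + 1)) (1 + 2) A).filter (fun f => SmoothR f ∧ SolK f)).card : ℝ) := by
    intro A
    rw [sub_le_iff_le_add]
    refine Pool.Agent.Y716.C.card_filter_le_add' _ (fun f => SolK f) (fun f => SmoothR f ∧ SolK f)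
      (fun f => ¬ SmoothR f) (fun f _ hf => ?_)
    by_cases hs : SmoothR f
    · left; exact ⟨hs, hf⟩
    · right; exact hs
  constructor
  · change Tendsto (fun A : ℕ =>
      (({f : MvPolynomial (Fin (n + 1)) F[X] | IsForm (1 + 2) A f ∧ SmoothR f ∧ SolK f} : Set _).ncard : ℝ) /
      (({f : MvPolynomial (Fin (n + 1)) F[X] | IsForm (1 + 2) A f ∧ SmoothR f ∧ LocZC f} : Set _).ncard : ℝ))
      atTop (𝓝 1)
    simp only [hset]
    simp only [ncard_eq_filter] at hmt ⊢
    refine Pool.Agent.Y716.C.ratio_aux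
      (T := fun A : ℕ => ((forms F (Fin (n + 1)) (1 + 2) A).card : ℝ))
      (a := fun A : ℕ => (((forms F (Fin (n + 1)) (1 + 2) A).filter (fun f => SolK f)).card : ℝ))
      (b := fun A : ℕ => (((forms F (Fin (n + 1)) (1 + 2) A).filter (fun f => ELS f)).card : ℝ))
      (ns := fun A : ℕ => (((forms F (Fin (n + 1)) (1 + 2) A).filter
        (fun f => ¬ SmoothR f)).card : ℝ))
      hc0 (Filter.Eventually.of_forall hT) (fun A => Nat.cast_nonneg _) ?_ ?_
      (fun A => ?_) (fun A => ?_) hle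
      (fun A => Nat.cast_nonneg _) hmt
    · intro ε hε
      exact hns ε hε
    · filter_upwards [hc] with A hA
      rw [hall, ncard_eq_filter] at hA
      refine hA.trans ?_
      refine Nat.cast_le.2 (Finset.card_le_card ?_)
      intro f hf
      rw [Finset.mem_filter] at hf ⊢
      exact ⟨hf.1, solK_els (mem_forms.mp hf.1) hf.2⟩
    · refine Nat.cast_le.2 (Finset.card_le_card ?_)
      intro f hf
      rw [Finset.mem_filter] at hf ⊢
      exact ⟨hf.1, hf.2.1, solK_els (mem_forms.mp hf.1) hf.2.2⟩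
    · refine Nat.cast_le.2 (Finset.card_le_card ?_)
      intro f hf
      rw [Finset.mem_filter] at hf ⊢
      exact ⟨hf.1, hf.2.2⟩
  · refine ⟨c / 2, by positivity, ?_⟩
    filter_upwards [hc, hns (c / 2) (by positivity)] with A h1 h2
    change c / 2 * (({f : MvPolynomial (Fin (n + 1)) F[X] | IsForm (1 + 2) A f} : Set _).ncard : ℝ) ≤
      (({f : MvPolynomial (Fin (n + 1)) F[X] | IsForm (1 + 2) A f ∧ SmoothR f ∧ SolK f} : Set _).ncard : ℝ)
    rw [hall, ncard_eq_filter] at h1 ⊢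
    have h3 := hle A
    linarith

end Pool.Agent.K7.H13.CL
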