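import Pool.Agent.K7.H13.CL.Ext
import Pool.Agent.K7.H13.CL.Coef
import Pool.Agent.Y214.CY.Main

/-!
# Coray's theorem for all local fields
-/

set_option autoImplicit false

namespace Pool.Agent.K7.H13.CL

open Pool.Agent.Y214.CY

/-- Chevalley's theorem for cubic forms over finite fields -/
theorem cw (k : Type) [Field k] [Finite k] (ι : Type) [Fintype ι] (t : ι → ι → ι → k)
    (hA : Aniso k t) : Fintype.card ι ≤ 3 := by
  classical
  have := Fintype.ofFinite k
  obtain ⟨p, hp⟩ := CharP.exists k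
  have hprime : p.Prime := CharP.char_is_prime k p
  have : Fact p.Prime := ⟨hprime⟩
  by_contra hcard
  rw [not_le] at hcard
  let F : MvPolynomial ι k :=
    ∑ i, ∑ j, ∑ l, MvPolynomial.C (t i j l) * MvPolynomial.X i * MvPolynomial.X j *
      MvPolynomial.X l
  have hF : ∀ x : ι → k, MvPolynomial.eval x F = cub t x := by
    intro x
    simp [F, cub, map_sum]
  have hdeg : F.totalDegree ≤ 3 := by
    refine (MvPolynomial.IsHomogeneous.totalDegree_le (n := 3) ?_)
    refine MvPolynomial.IsHomogeneous.sum _ _ _ fun i _ =>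
      MvPolynomial.IsHomogeneous.sum _ _ _ fun j _ =>
      MvPolynomial.IsHomogeneous.sum _ _ _ fun l _ => ?_
    have h1 := (((MvPolynomial.isHomogeneous_C ι (t i j l)).mul
      (MvPolynomial.isHomogeneous_X k i)).mul
      (MvPolynomial.isHomogeneous_X k j)).mul (MvPolynomial.isHomogeneous_X k l)
    simpa using h1
  have hdvd := char_dvd_card_solutions p (f := F) (lt_of_le_of_lt hdeg hcard)
  have hone : Fintype.card {x : ι → k // MvPolynomial.eval x F = 0} = 1 := by
    rw [Fintype.card_eq_one_iff]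
    refine ⟨⟨0, ?_⟩, ?_⟩
    · rw [hF]; simp [cub]
    · rintro ⟨y, hy⟩
      rw [hF] at hy
      by_contra hne
      exact hA y (fun h => hne (Subtype.ext h)) hy
  rw [hone] at hdvd
  exact hprime.one_lt.ne' (Nat.dvd_one.1 hdvd)

theorem sum_lt' {M α : Type} [NormedField M] [IsUltrametricDist M] {γ : ℝ} (hγ : 0 < γ)
    (s : Finset α) (f : α → M) (h : ∀ i ∈ s, ‖f i‖ < γ) : ‖∑ i ∈ s, f i‖ < γ := by
  classical
  induction s using Finset.induction_on with
  | empty => rwa [Finset.sum_empty, norm_zero]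
  | insert a s ha ih =>
    rw [Finset.sum_insert ha]
    exact (IsUltrametricDist.norm_add_le_max _ _).trans_lt
      (max_lt (h a (Finset.mem_insert_self _ _))
        (ih fun i hi => h i (Finset.mem_insert_of_mem hi)))

section

variable {K : Type} [NontriviallyNormedField K] [IsUltrametricDist K] [ProperSpace K]

omit [IsUltrametricDist K] [ProperSpace K] in
theorem norm_unif (W : Unif K) (i : ℕ) : ‖W.ϖ ^ i‖ = (W.q ^ i)⁻¹ := by
  rw [norm_pow, W.norm_ϖ, inv_pow]

omit [IsUltrametricDist K] [ProperSpace K] in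
theorem unif_ne (W : Unif K) : W.ϖ ≠ 0 := by
  rw [← norm_ne_zero_iff, W.norm_ϖ]
  exact inv_ne_zero (zero_lt_one.trans W.one_lt).ne'

theorem block_aniso (W : Unif K) {n : ℕ} (s : Fin n → Fin n → Fin n → K)
    (hO : ∀ (a : Fin n → K) (j : Fin n), ‖a j‖ ^ 3 * ‖s j j j‖ ≤ ‖cub s a‖)
    (ii : Fin n → ℕ) (hii : ∀ j, ‖s j j j‖ = (W.q ^ (ii j))⁻¹) (i : ℕ)
    (U : {j // ii j = i} → {j // ii j = i} → {j // ii j = i} → OO K)
    (hU : ∀ a b c : {j // ii j = i}, s a b c = W.ϖ ^ i * (U a b c : K)) :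
    Aniso (KK K) (fun a b c => red K (U a b c)) := by
  classical
  intro y hy h0
  obtain ⟨g, hg⟩ := Function.ne_iff.1 hy
  choose a ha using fun j => red_surj K (y j)
  let A : Fin n → K := fun j => if h : ii j = i then ((a ⟨j, h⟩ : OO K) : K) else 0
  have hA1 : ∀ j : {j // ii j = i}, A j = (a j : K) := by
    intro j
    simp [A, j.2]
  have hA2 : ∀ j, ii j ≠ i → A j = 0 := by
    intro j hj
    simp [A, hj]
  have hcub : cub s A = W.ϖ ^ i *
      ((∑ b, ∑ c, ∑ d, U b c d * a b * a c * a d : OO K) : K) := by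
    have e1 : cub s A = ∑ b, ∑ c, ∑ d, (if ii b = i ∧ ii c = i ∧ ii d = i then
        s b c d * A b * A c * A d else 0) := by
      simp only [cub, Algebra.algebraMap_self, RingHom.id_apply]
      refine Finset.sum_congr rfl fun b _ => Finset.sum_congr rfl fun c _ =>
        Finset.sum_congr rfl fun d _ => ?_
      split_ifs with h
      · rfl
      · by_cases hb : ii b = i
        · by_cases hc : ii c = i
          · have hd : ii d ≠ i := fun hd => h ⟨hb, hc, hd⟩
            rw [hA2 d hd, mul_zero]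
          · rw [hA2 c hc, mul_zero, zero_mul]
        · rw [hA2 b hb, mul_zero, zero_mul, zero_mul]
    rw [e1, sum_block (fun j => ii j = i) (fun b c d => s b c d * A b * A c * A d)]
    change _ = W.ϖ ^ i * (OO K).subtype (∑ b, ∑ c, ∑ d, U b c d * a b * a c * a d : OO K)
    simp only [map_sum, map_mul, Finset.mul_sum]
    refine Finset.sum_congr rfl fun b _ => Finset.sum_congr rfl fun c _ =>
        Finset.sum_congr rfl fun d _ => ?_
    rw [hA1 b, hA1 c, hA1 d, hU b c d]
    change _ = W.ϖ ^ i * ((U b c d : K) * (a b : K) * (a c : K) * (a d : K))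
    ring
  have hz : red K (∑ b, ∑ c, ∑ d, U b c d * a b * a c * a d) = 0 := by
    rw [← h0]
    simp only [cub, map_sum, map_mul, ha, Algebra.algebraMap_self, RingHom.id_apply]
  have hlt : ‖((∑ b, ∑ c, ∑ d, U b c d * a b * a c * a d : OO K) : K)‖ < 1 := red_eq_zero.1 hz
  have h1 : ‖(a g : K)‖ = 1 := by
    refine le_antisymm (a g).2 (not_lt.1 fun hlt' => hg ?_)
    rw [← ha g]
    exact red_eq_zero.2 hlt'
  have h2 := hO A g
  have hp0 : (0 : ℝ) < (W.q ^ i)⁻¹ := by
    have := zero_lt_one.trans W.one_lt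
    positivity
  rw [hA1 g, hcub, norm_mul, hii, g.2, norm_unif, h1, one_pow, one_mul] at h2
  have h3 : (W.q ^ i)⁻¹ * ‖((∑ b, ∑ c, ∑ d, U b c d * a b * a c * a d : OO K) : K)‖ <
      (W.q ^ i)⁻¹ * 1 := mul_lt_mul_of_pos_left hlt hp0
  linarith

/-- The sorted form in an orthogonal basis is anisotropic over `L`. -/
theorem sorted_L (W : Unif K) (L : Type) [NontriviallyNormedField L] [IsUltrametricDist L]
    [NormedAlgebra K L] [FiniteDimensional K L] (h3 : ¬ 3 ∣ Module.finrank K L) {n : ℕ}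
    (s : Fin n → Fin n → Fin n → K)
    (hO : ∀ (a : Fin n → K) (j : Fin n), ‖a j‖ ^ 3 * ‖s j j j‖ ≤ ‖cub s a‖)
    (ii : Fin n → ℕ) (hi2 : ∀ j, ii j ≤ 2) (hii : ∀ j, ‖s j j j‖ = (W.q ^ (ii j))⁻¹)
    (hcoef : ∀ i j k, ‖s i j k‖ ^ 3 ≤ ‖s i i i‖ * ‖s j j j‖ * ‖s k k k‖)
    (z : Fin n → L) (hz : z ≠ 0) : cub s z ≠ 0 := by
  classical
  have hq1 : 1 < W.q := W.one_lt
  have hq0 : 0 < W.q := zero_lt_one.trans hq1
  obtain ⟨ρ, hρ⟩ : ∃ ρ : Fin n → ℝ, ρ = fun j => (W.q ^ (ii j))⁻¹ := ⟨_, rfl⟩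
  have hρ0 : ∀ j, 0 < ρ j := by
    intro j
    rw [hρ]
    positivity
  -- the maximal index
  obtain ⟨j1, hj1⟩ := Function.ne_iff.1 hz
  obtain ⟨j0, -, hj0⟩ := Finset.exists_max_image Finset.univ
    (fun j => ‖z j‖ ^ 3 * ρ j) ⟨j1, Finset.mem_univ _⟩
  have hzj0 : z j0 ≠ 0 := by
    intro h0
    have := hj0 j1 (Finset.mem_univ _)
    rw [h0, norm_zero, zero_pow (by norm_num), zero_mul] at this
    have h2 : 0 < ‖z j1‖ ^ 3 * ρ j1 := mul_pos (pow_pos (norm_pos_iff.2 hj1) 3) (hρ0 j1)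
    linarith
  have hwz0 : 0 < ‖z j0‖ := norm_pos_iff.2 hzj0
  -- scale
  obtain ⟨y, hy⟩ : ∃ y : Fin n → L, y = fun j => z j / z j0 := ⟨_, rfl⟩
  have hzy : z = fun j => z j0 * y j := by
    funext j
    rw [hy]
    field_simp
  suffices hmain : cub s y ≠ 0 by
    rw [hzy, Pool.Agent.Y214.CY.cub_smul]
    exact mul_ne_zero (pow_ne_zero _ hzj0) hmain
  obtain ⟨i, hi⟩ : ∃ i, i = ii j0 := ⟨_, rfl⟩
  have hyj0 : y j0 = 1 := by rw [hy]; exact div_self hzj0
  obtain ⟨γ, hγ⟩ : ∃ γ : ℝ, γ = (W.q ^ i)⁻¹ := ⟨_, rfl⟩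
  have hγ0 : 0 < γ := by rw [hγ]; positivity
  have hγρ : ρ j0 = γ := by rw [hγ, hρ, hi]
  have hyle : ∀ j, ‖y j‖ ^ 3 * ρ j ≤ γ := by
    intro j
    have h1 := hj0 j (Finset.mem_univ _)
    rw [hγρ] at h1
    have h2 : ‖y j‖ = ‖z j‖ / ‖z j0‖ := by rw [hy]; exact norm_div _ _
    rw [h2, div_pow, div_mul_eq_mul_div, div_le_iff₀ (pow_pos hwz0 3), mul_comm γ]
    exact h1
  have hylt : ∀ j, ii j ≠ i → ‖y j‖ ^ 3 * ρ j < γ := by
    intro j hj
    refine lt_of_le_of_ne (hyle j) ?_
    intro heq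
    have hyj : y j ≠ 0 := by
      intro h
      rw [h, norm_zero, zero_pow (by norm_num), zero_mul] at heq
      exact hγ0.ne heq
    obtain ⟨a, ha⟩ := norm_pow_finrank K L W (y j) hyj
    obtain ⟨m, hm⟩ : ∃ m, m = Module.finrank K L := ⟨_, rfl⟩
    rw [← hm] at ha
    have h4 : (‖y j‖ ^ m) ^ 3 * (ρ j) ^ m = γ ^ m := by
      rw [← heq, mul_pow, ← pow_mul, ← pow_mul, mul_comm 3 m]
    have e : ∀ k : ℕ, ((W.q ^ k)⁻¹) ^ m = W.q ^ (-((k : ℤ) * m)) := by
      intro k
      rw [inv_pow, ← pow_mul, zpow_neg]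
      congr 1
    rw [ha, hγ, hρ] at h4
    simp only at h4
    rw [e, e, ← zpow_natCast, ← zpow_mul, ← zpow_add₀ hq0.ne'] at h4
    have h5 := zpow_right_injective₀ hq0 hq1.ne' h4
    have h2 : (3 : ℤ) ∣ (m : ℤ) * ((i : ℤ) - ii j) := ⟨a, by push_cast at h5; linarith⟩
    rcases (Int.prime_three).dvd_or_dvd h2 with h | h
    · exact h3 (by rw [← hm]; exact_mod_cast h)
    · have := hi2 j
      have := hi2 j0
      omega
  have hy1 : ∀ j, ii j = i → ‖y j‖ ≤ 1 := by
    intro j hj
    have h1 := hyle j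
    have h5 : ρ j = γ := by rw [hγ, hρ, ← hj]
    rw [h5] at h1
    have h2 : ‖y j‖ ^ 3 ≤ 1 := by
      have h3 : ‖y j‖ ^ 3 * γ ≤ 1 * γ := by rw [one_mul]; exact h1
      exact le_of_mul_le_mul_right h3 hγ0
    by_contra h4
    rw [not_le] at h4
    have := one_lt_pow₀ h4 (three_ne_zero)
    linarith
  -- the terms
  let f : Fin n → Fin n → Fin n → L := fun a b c =>
    algebraMap K L (s a b c) * y a * y b * y c
  have hfle : ∀ a b c, ‖f a b c‖ ^ 3 ≤ (‖y a‖ ^ 3 * ρ a) *
      (‖y b‖ ^ 3 * ρ b) * (‖y c‖ ^ 3 * ρ c) := by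
    intro a b c
    have h1 : ‖f a b c‖ ^ 3 = ‖s a b c‖ ^ 3 * (‖y a‖ ^ 3 * ‖y b‖ ^ 3 * ‖y c‖ ^ 3) := by
      simp only [f, norm_mul, norm_algebraMap', mul_pow]
      ring
    rw [h1]
    have h2 := hcoef a b c
    rw [hii, hii, hii] at h2
    calc _ ≤ (ρ a * ρ b * ρ c) * (‖y a‖ ^ 3 * ‖y b‖ ^ 3 * ‖y c‖ ^ 3) := by
          rw [hρ]
          gcongr
      _ = _ := by ring
  have hnn : ∀ j, 0 ≤ ‖y j‖ ^ 3 * ρ j := fun j => mul_nonneg (by positivity) (hρ0 j).le
  have hflt : ∀ a b c, ¬ (ii a = i ∧ ii b = i ∧ ii c = i) → ‖f a b c‖ < γ := by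
    intro a b c h
    have h4 : ‖f a b c‖ ^ 3 < γ ^ 3 := by
      refine lt_of_le_of_lt (hfle a b c) ?_
      have e3 : γ ^ 3 = γ * γ * γ := by ring
      rw [e3]
      by_cases ha : ii a = i
      · by_cases hb : ii b = i
        · have hc : ii c ≠ i := fun hc => h ⟨ha, hb, hc⟩
          calc _ ≤ (γ * γ) * (‖y c‖ ^ 3 * ρ c) :=
                mul_le_mul_of_nonneg_right (mul_le_mul (hyle a) (hyle b) (hnn b) hγ0.le) (hnn c)
            _ < (γ * γ) * γ := mul_lt_mul_of_pos_left (hylt c hc) (mul_pos hγ0 hγ0)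
        · calc _ ≤ (γ * (‖y b‖ ^ 3 * ρ b)) * γ :=
                mul_le_mul (mul_le_mul_of_nonneg_right (hyle a) (hnn b)) (hyle c) (hnn c)
                  (mul_nonneg hγ0.le (hnn b))
            _ < (γ * γ) * γ := mul_lt_mul_of_pos_right
                (mul_lt_mul_of_pos_left (hylt b hb) hγ0) hγ0
      · calc _ ≤ ((‖y a‖ ^ 3 * ρ a) * γ) * γ :=
              mul_le_mul (mul_le_mul_of_nonneg_left (hyle b) (hnn a)) (hyle c) (hnn c)
                (mul_nonneg (hnn a) hγ0.le)
          _ < (γ * γ) * γ := mul_lt_mul_of_pos_right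
              (mul_lt_mul_of_pos_right (hylt a ha) hγ0) hγ0
    exact lt_of_pow_lt_pow_left₀ 3 hγ0.le h4
  intro h0
  -- the block sum is small
  have hrest : ‖∑ a, ∑ b, ∑ c, (if ii a = i ∧ ii b = i ∧ ii c = i then 0 else f a b c)‖ < γ := by
    refine sum_lt' hγ0 _ _ fun a _ => sum_lt' hγ0 _ _ fun b _ => sum_lt' hγ0 _ _ fun c _ => ?_
    split_ifs with h
    · rw [norm_zero]; exact hγ0
    · exact hflt a b c h
  have hsplit : cub s y = (∑ a, ∑ b, ∑ c, (if ii a = i ∧ ii b = i ∧ ii c = i then f a b c else 0)) +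
      ∑ a, ∑ b, ∑ c, (if ii a = i ∧ ii b = i ∧ ii c = i then 0 else f a b c) := by
    simp only [cub, ← Finset.sum_add_distrib]
    refine Finset.sum_congr rfl fun a _ => Finset.sum_congr rfl fun b _ =>
      Finset.sum_congr rfl fun c _ => ?_
    split_ifs <;> simp [f]
  have hblock : ‖∑ a : {j // ii j = i}, ∑ b : {j // ii j = i}, ∑ c : {j // ii j = i},
      f a b c‖ < γ := by
    rw [← sum_block (fun j => ii j = i) f]
    rw [h0] at hsplit
    have : (∑ a, ∑ b, ∑ c, (if ii a = i ∧ ii b = i ∧ ii c = i then f a b c else 0)) =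
      -∑ a, ∑ b, ∑ c, (if ii a = i ∧ ii b = i ∧ ii c = i then 0 else f a b c) := by
      linear_combination -hsplit
    rw [this, norm_neg]
    exact hrest
  -- integral coefficients
  have hϖ := unif_ne W
  have hUle : ∀ a b c : {j // ii j = i}, ‖s a b c / W.ϖ ^ i‖ ≤ 1 := by
    intro a b c
    rw [norm_div, norm_unif, div_le_one (by positivity)]
    have h1 := hcoef a b c
    rw [hii, hii, hii, a.2, b.2, c.2] at h1
    have h2 : ‖s a b c‖ ^ 3 ≤ ((W.q ^ i)⁻¹) ^ 3 := by
      calc _ ≤ _ := h1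
        _ = _ := by ring
    exact le_of_pow_le_pow_left₀ (by norm_num) (by positivity) h2
  let U : {j // ii j = i} → {j // ii j = i} → {j // ii j = i} → OO K := fun a b c =>
    ⟨s a b c / W.ϖ ^ i, hUle a b c⟩
  have hU : ∀ a b c : {j // ii j = i}, s a b c = W.ϖ ^ i * (U a b c : K) := by
    intro a b c
    change s a b c = W.ϖ ^ i * (s a b c / W.ϖ ^ i)
    field_simp
  have hAn := block_aniso W s hO ii hii i U hU
  have hcard := cw (KK K) _ _ hAn
  let : Algebra (KK K) (KK L) := resAlg K L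
  have hprop : ProperSpace L := FiniteDimensional.proper K L
  have hfin : Module.Finite (KK K) (KK L) := inferInstance
  have hf : ¬ 3 ∣ Module.finrank (KK K) (KK L) := fun h => h3 (h.trans (resdeg K L))
  have hAnκ := Pool.Agent.Y214.CY.t_LOW Pool.Agent.Y339.CY.Low1.t_NRM1 Pool.Agent.Y339.CY.Low1.t_NRM2 Pool.Agent.Y339.CY.Low1.t_TOP (KK K) (KK L) _ _ hcard hf hAn
  let V : {j // ii j = i} → {j // ii j = i} → {j // ii j = i} → OO L := fun a b c =>
    jj K L (U a b c)
  let Y : {j // ii j = i} → OO L := fun a => ⟨y a, hy1 a a.2⟩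
  let X : OO L := ∑ a, ∑ b, ∑ c, V a b c * Y a * Y b * Y c
  have hX : (X : L) * algebraMap K L (W.ϖ ^ i) =
      ∑ a : {j // ii j = i}, ∑ b : {j // ii j = i}, ∑ c : {j // ii j = i}, f a b c := by
    have e1 : (X : L) = ∑ a : {j // ii j = i}, ∑ b : {j // ii j = i}, ∑ c : {j // ii j = i},
        algebraMap K L (U a b c : K) * y a * y b * y c := by
      change (OO L).subtype X = _
      simp only [X, map_sum, map_mul]
      rfl
    rw [e1, Finset.sum_mul]
    refine Finset.sum_congr rfl fun a _ => ?_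
    rw [Finset.sum_mul]
    refine Finset.sum_congr rfl fun b _ => ?_
    rw [Finset.sum_mul]
    refine Finset.sum_congr rfl fun c _ => ?_
    change _ = algebraMap K L (s a b c) * y a * y b * y c
    rw [hU a b c, map_mul]
    ring
  have hX1 : ‖(X : L)‖ < 1 := by
    have h1 := hblock
    rw [← hX, norm_mul, norm_algebraMap', norm_unif, ← hγ] at h1
    have h2 : ‖(X : L)‖ * γ < 1 * γ := by rw [one_mul]; exact h1
    exact lt_of_mul_lt_mul_right h2 hγ0.le
  have hX0 : red L X = 0 := red_eq_zero.2 hX1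
  apply hAnκ (fun a => red L (Y a))
  · intro hc
    have h1 : red L (Y ⟨j0, hi.symm⟩) = 0 := congrFun hc ⟨j0, hi.symm⟩
    have h2 : Y ⟨j0, hi.symm⟩ = 1 := Subtype.ext hyj0
    rw [h2, map_one] at h1
    exact one_ne_zero h1
  · rw [← hX0]
    simp only [cub, X, map_sum, map_mul]
    refine Finset.sum_congr rfl fun a _ => Finset.sum_congr rfl fun b _ =>
      Finset.sum_congr rfl fun c _ => ?_
    rfl

/-- anisotropic cubic forms over a local field stay anisotropic over normed extensions of degree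
prime to three -/
theorem aniso_normed (W : Unif K) (L : Type) [NontriviallyNormedField L] [IsUltrametricDist L]
    [NormedAlgebra K L] [FiniteDimensional K L] (h3 : ¬ 3 ∣ Module.finrank K L) (n : ℕ)
    (t : Fin n → Fin n → Fin n → K) (hA : Aniso K t) : Aniso L t := by
  intro x hx
  obtain ⟨e, hlin, hO, hexp⟩ := orth W n t hA
  obtain ⟨s, hs0, hs⟩ := Pool.Agent.Y528.CY.t_SORT n K (tens t e)
  have hev : ∀ a : Fin n → K, cub s a = cub t (∑ i, a i • e i) := by
    intro a
    rw [hs, cub_tens]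
    congr 1
    funext i
    simp only [Algebra.algebraMap_self, RingHom.id_apply, Finset.sum_apply, Pi.smul_apply,
      smul_eq_mul]
  have hsj : ∀ j, s j j j = cub t (e j) := by
    intro j
    rw [← cub_single s j, hev]
    congr 1
    simp [Pi.single_apply]
  have hAs : Aniso K s := by
    intro a ha h0
    rw [hev] at h0
    apply hA _ _ h0
    intro hc
    apply ha
    have := Fintype.linearIndependent_iff.1 hlin a hc
    funext i
    exact this i
  choose ii hi2 hii using hexp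
  have hii' : ∀ j, ‖s j j j‖ = (W.q ^ (ii j))⁻¹ := fun j => by rw [hsj]; exact hii j
  have hO' : ∀ (a : Fin n → K) (j : Fin n), ‖a j‖ ^ 3 * ‖s j j j‖ ≤ ‖cub s a‖ := by
    intro a j
    rw [hev, hsj]
    exact hO a j
  have hcoef := coef W n s hAs hs0 (fun j => ⟨ii j, hi2 j, hii' j⟩)
  -- coordinates over L
  let M : Matrix (Fin n) (Fin n) K := Matrix.of e
  have hM : IsUnit M.det := by
    rw [← Matrix.isUnit_iff_isUnit_det]
    exact Matrix.linearIndependent_rows_iff_isUnit.1 hlin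
  let ML : Matrix (Fin n) (Fin n) L := M.map (algebraMap K L)
  have hML : IsUnit ML.det := by
    have : ML.det = algebraMap K L M.det := by
      rw [RingHom.map_det]; rfl
    rw [this]
    exact hM.map _
  let y : Fin n → L := Matrix.vecMul x ML⁻¹
  have hyx : Matrix.vecMul y ML = x := by
    rw [Matrix.vecMul_vecMul, Matrix.nonsing_inv_mul _ hML, Matrix.vecMul_one]
  have hy : y ≠ 0 := by
    intro h
    rw [h, Matrix.zero_vecMul] at hyx
    exact hx hyx.symm
  have h1 := sorted_L W L h3 s hO' ii hi2 hii' hcoef y hy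
  rw [hs, cub_tens] at h1
  have h2 : (fun i => ∑ a, y a * algebraMap K L (e a i)) = x := by
    rw [← hyx]
    funext i
    simp only [Matrix.vecMul, dotProduct]
    rfl
  rwa [h2] at h1

/-- Coray's theorem: an anisotropic cubic form over a local field stays anisotropic over all
extensions of degree prime to three. -/
theorem aniso_ext (W : Unif K) (L : Type) [Field L] [Algebra K L] [FiniteDimensional K L]
    (h3 : ¬ 3 ∣ Module.finrank K L) (n : ℕ)
    (t : Fin n → Fin n → Fin n → K) (hA : Aniso K t) : Aniso L t := by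
  let i1 : NontriviallyNormedField L := spectralNorm.nontriviallyNormedField K L
  let i2 : NormedAlgebra K L := spectralNorm.normedAlgebra K L
  have i3 : IsUltrametricDist L := by
    refine IsUltrametricDist.isUltrametricDist_of_isNonarchimedean_norm ?_
    exact isNonarchimedean_spectralNorm (K := K) (L := L)
  have i4 : FiniteDimensional K L := inferInstance
  exact aniso_normed W L h3 n t hA

/-- Coray's theorem for cubic forms -/
theorem coray (W : Unif K) (L : Type) [Field L] [Algebra K L] [FiniteDimensional K L]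
    (h3 : ¬ 3 ∣ Module.finrank K L) {ι : Type} [Fintype ι]
    (f : MvPolynomial ι K) (hf : f.IsHomogeneous 3) (x : ι → L) (hx : x ≠ 0)
    (h0 : MvPolynomial.aeval x f = 0) : ∃ y : ι → K, y ≠ 0 ∧ MvPolynomial.aeval y f = 0 := by
  classical
  let e := Fintype.equivFin ι
  let g : MvPolynomial (Fin (Fintype.card ι)) K := MvPolynomial.rename e f
  have hg : g.IsHomogeneous 3 := hf.rename_isHomogeneous
  have hev : ∀ (A : Type) [Field A] [Algebra K A] (z : Fin (Fintype.card ι) → A),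
      MvPolynomial.aeval z g = MvPolynomial.aeval (fun i => z (e i)) f := by
    intro A _ _ z
    simp only [g, MvPolynomial.aeval_rename]
    rfl
  obtain ⟨t, ht⟩ := Pool.Agent.Y528.CY.t_POLY _ K g hg
  by_contra hcon
  push Not at hcon
  have hA : Aniso K t := by
    intro y hy h
    rw [← ht, hev] at h
    refine hcon (fun i => y (e i)) ?_ h
    intro h1
    apply hy
    funext i
    have := congrFun h1 (e.symm i)
    simpa using this
  have h1 := aniso_ext W L h3 _ t hA (fun i => x (e.symm i)) (by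
    intro h
    apply hx
    funext i
    have := congrFun h (e i)
    simpa using this)
  apply h1
  rw [← ht, hev]
  simpa using h0

end

end Pool.Agent.K7.H13.CL
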