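import Mathlib

/-!
# Residue fields of ultrametric fields, and the residue degree
-/

set_option autoImplicit false

namespace Pool.Agent.K7.H13.CL

open Polynomial

section ring

variable (M : Type) [NormedField M] [IsUltrametricDist M]

/-- the closed unit ball -/
def OO : Subring M where
  carrier := {x | ‖x‖ ≤ 1}
  mul_mem' {x y} hx hy := by
    change ‖x * y‖ ≤ 1
    rw [norm_mul]
    exact mul_le_one₀ hx (norm_nonneg _) hy
  one_mem' := norm_one.le
  add_mem' {x y} hx hy := (IsUltrametricDist.norm_add_le_max _ _).trans (max_le hx hy)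
  zero_mem' := by
    change ‖(0 : M)‖ ≤ 1
    rw [norm_zero]
    exact zero_le_one
  neg_mem' {x} hx := by
    change ‖-x‖ ≤ 1
    rw [norm_neg]
    exact hx

variable {M} in
theorem mem_OO {x : M} : x ∈ OO M ↔ ‖x‖ ≤ 1 := Iff.rfl

/-- the open unit ball -/
def mm : Ideal (OO M) where
  carrier := {x | ‖(x : M)‖ < 1}
  add_mem' {x y} hx hy :=
    (IsUltrametricDist.norm_add_le_max (x : M) (y : M)).trans_lt (max_lt hx hy)
  zero_mem' := by
    change ‖((0 : OO M) : M)‖ < 1
    rw [ZeroMemClass.coe_zero, norm_zero]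
    exact zero_lt_one
  smul_mem' c {x} hx := by
    change ‖(c : M) * (x : M)‖ < 1
    rw [norm_mul]
    exact mul_lt_one_of_nonneg_of_lt_one_right c.2 (norm_nonneg _) hx

variable {M} in
theorem mem_mm {x : OO M} : x ∈ mm M ↔ ‖(x : M)‖ < 1 := Iff.rfl

instance mm_maximal : (mm M).IsMaximal := by
  rw [Ideal.isMaximal_iff]
  constructor
  · rw [mem_mm, OneMemClass.coe_one, norm_one]
    exact lt_irrefl _
  · intro J x _ hx hxJ
    rw [mem_mm, not_lt] at hx
    have h1 : ‖(x : M)‖ = 1 := le_antisymm x.2 hx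
    have h2 : (x : M) ≠ 0 := by
      rw [← norm_ne_zero_iff, h1]
      exact one_ne_zero
    have h3 : (x : M)⁻¹ ∈ OO M := by
      rw [mem_OO, norm_inv, h1, inv_one]
    have h4 : (⟨(x : M)⁻¹, h3⟩ : OO M) * x = 1 := Subtype.ext (inv_mul_cancel₀ h2)
    rw [← h4]
    exact J.mul_mem_left _ hxJ

/-- the residue field -/
abbrev KK : Type := OO M ⧸ mm M

noncomputable instance : Field (KK M) := Ideal.Quotient.field (mm M)

/-- the reduction -/
noncomputable def red : OO M →+* KK M := Ideal.Quotient.mk (mm M)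

variable {M} in
theorem red_eq_zero {x : OO M} : red M x = 0 ↔ ‖(x : M)‖ < 1 := by
  unfold red
  rw [Ideal.Quotient.eq_zero_iff_mem, mem_mm]

theorem red_surj : Function.Surjective (red M) := Ideal.Quotient.mk_surjective

instance finite_KK [ProperSpace M] : Finite (KK M) := by
  obtain ⟨t, -, ht, hcov⟩ := (isCompact_closedBall (0 : M) 1).finite_cover_balls
    (e := 1) zero_lt_one
  classical
  let g : t → KK M := fun x => if h : ‖(x : M)‖ ≤ 1 then red M ⟨x, h⟩ else 0
  have : Finite t := ht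
  refine Finite.of_surjective g fun y => ?_
  obtain ⟨z, rfl⟩ := red_surj M y
  have hz : (z : M) ∈ Metric.closedBall (0 : M) 1 := by
    rw [mem_closedBall_zero_iff]
    exact z.2
  obtain ⟨x, hx, hxz⟩ := Set.mem_iUnion₂.1 (hcov hz)
  rw [Metric.mem_ball, dist_eq_norm] at hxz
  have h1 : ‖x‖ ≤ 1 := by
    have h2 : x = (z : M) + -((z : M) - x) := by ring
    rw [h2]
    refine (IsUltrametricDist.norm_add_le_max _ _).trans (max_le z.2 ?_)
    rw [norm_neg]
    exact hxz.le
  refine ⟨⟨x, hx⟩, ?_⟩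
  change (if h : ‖x‖ ≤ 1 then red M ⟨x, h⟩ else 0) = _
  rw [dif_pos h1, ← sub_eq_zero, ← map_sub, red_eq_zero]
  change ‖x - (z : M)‖ < 1
  rwa [norm_sub_rev]

end ring

section hensel

variable {M : Type} [NontriviallyNormedField M] [IsUltrametricDist M] [ProperSpace M]

/-- Hensel's lemma -/
theorem hensel (P : (OO M)[X]) (b : OO M) (h0 : red M (P.eval b) = 0)
    (h1 : red M (P.derivative.eval b) ≠ 0) : ∃ a : OO M, P.eval a = 0 ∧ red M a = red M b := by
  have hcl : IsClosed (Metric.ball (b : M) 1) := IsUltrametricDist.isClosed_ball _ _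
  have hco : IsCompact (Metric.ball (b : M) 1) :=
    (isCompact_closedBall (b : M) 1).of_isClosed_subset hcl Metric.ball_subset_closedBall
  obtain ⟨x0, hx0, hmin⟩ := hco.exists_isMinOn ⟨(b : M), Metric.mem_ball_self one_pos⟩
    (f := fun x => ‖(P.map (OO M).subtype).eval x‖) (by fun_prop)
  have hx0' : x0 ∈ OO M := by
    rw [Metric.mem_ball, dist_eq_norm] at hx0
    have h2 : x0 = (x0 - b) + b := by ring
    rw [mem_OO, h2]
    exact (IsUltrametricDist.norm_add_le_max _ _).trans (max_le hx0.le b.2)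
  obtain ⟨y, hy⟩ : ∃ y : OO M, (y : M) = x0 := ⟨⟨x0, hx0'⟩, rfl⟩
  have hev : ∀ z : OO M, (P.map (OO M).subtype).eval (z : M) = ((P.eval z : OO M) : M) := by
    intro z
    have := Polynomial.eval_map_apply (p := P) (OO M).subtype z
    exact this
  have hry : red M y = red M b := by
    rw [← sub_eq_zero, ← map_sub, red_eq_zero]
    rw [Metric.mem_ball, dist_eq_norm, ← hy] at hx0
    exact hx0
  have hred : ∀ (Q : (OO M)[X]), red M (Q.eval y) = red M (Q.eval b) := by
    intro Q
    rw [← Polynomial.eval_map_apply, ← Polynomial.eval_map_apply, hry]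
  refine ⟨y, ?_, hry⟩
  by_contra hne
  have hne' : ((P.eval y : OO M) : M) ≠ 0 := fun h => hne (Subtype.ext h)
  have h2 : ‖((P.eval y : OO M) : M)‖ < 1 := red_eq_zero.1 (by rw [hred]; exact h0)
  have h3 : ‖((P.derivative.eval y : OO M) : M)‖ = 1 := by
    refine le_antisymm (P.derivative.eval y).2 (not_lt.1 fun h => h1 ?_)
    rw [← hred]
    exact red_eq_zero.2 h
  have h4 : ((P.derivative.eval y : OO M) : M) ≠ 0 := by
    rw [← norm_ne_zero_iff, h3]
    exact one_ne_zero
  obtain ⟨d, hd⟩ : ∃ d : M, d = -((P.eval y : OO M) : M) / ((P.derivative.eval y : OO M) : M) :=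
    ⟨_, rfl⟩
  have hdn : ‖d‖ = ‖((P.eval y : OO M) : M)‖ := by
    rw [hd, norm_div, h3, div_one, norm_neg]
  have hdO : d ∈ OO M := by
    rw [mem_OO, hdn]
    exact h2.le
  obtain ⟨k, hk⟩ := P.binomExpansion y ⟨d, hdO⟩
  have h5 : ((P.eval (y + ⟨d, hdO⟩) : OO M) : M) = (k : M) * d ^ 2 := by
    have h6 := congrArg (fun z : OO M => (z : M)) hk
    simp only [Subring.coe_add, Subring.coe_mul, Subring.coe_pow] at h6
    rw [h6, hd]
    field_simp
    ring
  have h7 : ‖((P.eval (y + ⟨d, hdO⟩) : OO M) : M)‖ < ‖((P.eval y : OO M) : M)‖ := by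
    rw [h5, norm_mul, norm_pow, hdn]
    have h8 : 0 < ‖((P.eval y : OO M) : M)‖ := norm_pos_iff.2 hne'
    calc ‖(k : M)‖ * ‖((P.eval y : OO M) : M)‖ ^ 2 ≤ 1 * ‖((P.eval y : OO M) : M)‖ ^ 2 := by
          gcongr
          exact k.2
      _ = ‖((P.eval y : OO M) : M)‖ * ‖((P.eval y : OO M) : M)‖ := by ring
      _ < 1 * ‖((P.eval y : OO M) : M)‖ := mul_lt_mul_of_pos_right h2 h8
      _ = _ := one_mul _
  have h9 : x0 + d ∈ Metric.ball (b : M) 1 := by
    rw [Metric.mem_ball, dist_eq_norm] at hx0 ⊢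
    have : x0 + d - b = (x0 - b) + d := by ring
    rw [this]
    exact (IsUltrametricDist.norm_add_le_max _ _).trans_lt (max_lt hx0 (hdn ▸ h2))
  have h10 : ‖(P.map (OO M).subtype).eval x0‖ ≤ ‖(P.map (OO M).subtype).eval (x0 + d)‖ := hmin h9
  have h11 : (y : M) + d = (((y + ⟨d, hdO⟩ : OO M)) : M) := rfl
  rw [← hy, h11, hev, hev] at h10
  exact absurd h10 (not_le.2 h7)

end hensel

end Pool.Agent.K7.H13.CL
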