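import Pool.Agent.K7.H13.CL.Loc

/-!
# Coray's theorem for complete discretely valued fields with finite residue field
-/

set_option autoImplicit false

namespace Pool.Agent.K7.H13.CL

open WithZero Valued MonoidWithZeroHom Valuation
open scoped NNReal

theorem disc {K : Type} [Field K] (v : Valuation K ℤᵐ⁰) (hs : Function.Surjective v) :
    v.IsRankOneDiscrete := by
  have h1 : Nontrivial (valueGroup (.ofClass v)) := by
    obtain ⟨x, hx⟩ := hs (exp (1 : ℤ))
    have hx0 : v x ≠ 0 := by rw [hx]; exact exp_ne_zero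
    have h2 : v.IsNontrivial := ⟨⟨x, hx0, by rw [hx, ← exp_zero, Ne, exp_inj]; norm_num⟩⟩
    infer_instance
  exact IsRankOneDiscrete.mk' v

theorem coray_valued (K : Type) [Field K] [Valued K ℤᵐ⁰] [CompleteSpace K]
    (hs : Function.Surjective (Valued.v : Valuation K ℤᵐ⁰))
    (T : Set K) (hT : T.Finite)
    (hcov : ∀ x : K, (Valued.v : Valuation K ℤᵐ⁰) x ≤ 1 → ∃ t ∈ T,
      (Valued.v : Valuation K ℤᵐ⁰) t ≤ 1 ∧ (Valued.v : Valuation K ℤᵐ⁰) (x - t) < 1)
    (L : Type) [Field L] [Algebra K L] [FiniteDimensional K L]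
    (h3 : ¬ 3 ∣ Module.finrank K L) {ι : Type} [Fintype ι] (f : MvPolynomial ι K)
    (hf : f.IsHomogeneous 3) (x : ι → L) (hx : x ≠ 0) (h0 : MvPolynomial.aeval x f = 0) :
    ∃ y : ι → K, y ≠ 0 ∧ MvPolynomial.aeval y f = 0 := by
  have hd : (Valued.v : Valuation K ℤᵐ⁰).IsRankOneDiscrete := disc _ hs
  have h1 : Nontrivial (valueGroup (.ofClass (Valued.v : Valuation K ℤᵐ⁰))) := by
    obtain ⟨x, hx⟩ := hs (exp (1 : ℤ))
    have hx0 : (Valued.v : Valuation K ℤᵐ⁰) x ≠ 0 := by rw [hx]; exact exp_ne_zero
    have h2 : (Valued.v : Valuation K ℤᵐ⁰).IsNontrivial :=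
      ⟨⟨x, hx0, by rw [hx, ← exp_zero, Ne, exp_inj]; norm_num⟩⟩
    infer_instance
  let hr : (Valued.v : Valuation K ℤᵐ⁰).RankOne :=
    IsRankOneDiscrete.rankOne (Valued.v : Valuation K ℤᵐ⁰) (e := 2) one_lt_two
  let _ : NontriviallyNormedField K := Valued.toNontriviallyNormedField K ℤᵐ⁰
  have hdvr : IsDiscreteValuationRing (Valued.integer K) :=
    (Valued.v : Valuation K ℤᵐ⁰).valuationSubring_isDiscreteValuationRing
  have hfin : Finite (IsLocalRing.ResidueField (Valued.integer K)) := by
    have : Finite T := hT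
    let T' : Set K := {t | t ∈ T ∧ (Valued.v : Valuation K ℤᵐ⁰) t ≤ 1}
    have hT' : Finite T' := (hT.subset fun t ht => ht.1).to_subtype
    refine Finite.of_surjective
      (fun t : T' => IsLocalRing.residue (Valued.integer K) ⟨t.1, t.2.2⟩) ?_
    intro y
    obtain ⟨x, rfl⟩ := IsLocalRing.residue_surjective y
    obtain ⟨t, ht1, ht2, ht3⟩ := hcov x.1 x.2
    refine ⟨⟨t, ht1, ht2⟩, ?_⟩
    symm
    rw [← sub_eq_zero, ← _root_.map_sub, IsLocalRing.residue_eq_zero_iff]
    exact (Valuation.mem_maximalIdeal_iff _ _).2 ht3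
  have hU : IsUltrametricDist K := inferInstance
  have hP : ProperSpace K :=
    Valued.integer.properSpace_iff_completeSpace_and_isDiscreteValuationRing_integer_and_finite_residueField.2
      ⟨inferInstance, hdvr, hfin⟩
  have hn : ∀ x : K, ‖x‖ = ((WithZeroMulInt.toNNReal (e := 2) two_ne_zero
      ((Valued.v : Valuation K ℤᵐ⁰) x) : ℝ≥0) : ℝ) := by
    intro x
    rw [Valued.toNormedField.norm_def]
    rw [← IsRankOneDiscrete.valueGroup₀_equiv_withZeroMulInt_restrict_apply_of_surjective hs]
    rfl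
  have hn2 : ∀ (x : K) (n : ℤ), (Valued.v : Valuation K ℤᵐ⁰) x = exp n → ‖x‖ = 2 ^ n := by
    intro x n hx
    rw [hn, hx, WithZeroMulInt.toNNReal_neg_apply _ exp_ne_zero]
    simp [exp]
  obtain ⟨π, hπ⟩ := hs (exp (-1 : ℤ))
  let W : Unif K :=
    { q := 2
      one_lt := one_lt_two
      ϖ := π
      norm_ϖ := by
        rw [hn2 π (-1) hπ, zpow_neg_one]
      val := fun x hx => by
        have h2 : (Valued.v : Valuation K ℤᵐ⁰) x ≠ 0 := (Valuation.ne_zero_iff _).2 hx
        refine ⟨-log ((Valued.v : Valuation K ℤᵐ⁰) x), ?_⟩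
        rw [neg_neg]
        exact hn2 x _ (exp_log h2).symm }
  exact coray W L h3 f hf x hx h0

end Pool.Agent.K7.H13.CL

namespace Pool.Agent.K7.H13.CL

open WithZero IsDedekindDomain IsDedekindDomain.HeightOneSpectrum Polynomial

/-- Coray's theorem at the finite places of `F(t)` -/
theorem coray_adic (F : Type) [Field F] [Finite F] (v : HeightOneSpectrum F[X])
    (L : Type) [Field L] [Algebra (v.adicCompletion (RatFunc F)) L]
    [FiniteDimensional (v.adicCompletion (RatFunc F)) L]
    (h3 : ¬ 3 ∣ Module.finrank (v.adicCompletion (RatFunc F)) L) {ι : Type} [Fintype ι]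
    (f : MvPolynomial ι (v.adicCompletion (RatFunc F)))
    (hf : f.IsHomogeneous 3) (x : ι → L) (hx : x ≠ 0) (h0 : MvPolynomial.aeval x f = 0) :
    ∃ y : ι → v.adicCompletion (RatFunc F), y ≠ 0 ∧ MvPolynomial.aeval y f = 0 := by
  classical
  let val : Valuation (v.adicCompletion (RatFunc F)) ℤᵐ⁰ := Valued.v
  have hval : ∀ a : F[X], val (algebraMap F[X] (v.adicCompletion (RatFunc F)) a)
      = v.intValuation a := by
    intro a
    have h1 := valuedAdicCompletion_eq_valuation (K := RatFunc F) v a
    rw [← valuation_of_algebraMap (K := RatFunc F)]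
    exact h1
  have hkv : ∀ k : RatFunc F, val (algebraMap (RatFunc F) (v.adicCompletion (RatFunc F)) k)
        = v.valuation (RatFunc F) k := fun k => valuedAdicCompletion_eq_valuation' (R := F[X]) v k
  obtain ⟨P, hP⟩ := (IsPrincipalIdealRing.principal v.asIdeal).principal
  have hP' : v.asIdeal = Ideal.span {P} := hP
  have hP0 : P ≠ 0 := by
    rintro rfl
    apply v.ne_bot
    rw [hP', Ideal.span_singleton_eq_bot]
  let S : Set F[X] := {a | a.degree < P.degree}
  have hS : S.Finite := by
    have h1 : Finite (Polynomial.degreeLT F P.natDegree) :=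
      Finite.of_equiv _ (Polynomial.degreeLTEquiv F P.natDegree).toEquiv.symm
    refine (Set.toFinite ((Polynomial.degreeLT F P.natDegree : Submodule F F[X]) : Set F[X])).subset
      fun a ha => ?_
    rw [SetLike.mem_coe, Polynomial.mem_degreeLT, ← Polynomial.degree_eq_natDegree hP0]
    exact ha
  refine coray_valued _ (valuedAdicCompletion_surjective _ v)
    (algebraMap F[X] (v.adicCompletion (RatFunc F)) '' S) (hS.image _) ?_ L h3 f hf x hx h0
  intro z hz
  have hopen : IsOpen {w : v.adicCompletion (RatFunc F) | val (w - z) < 1} := by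
    have h1 : IsOpen {w : v.adicCompletion (RatFunc F) | val w < 1} := by
      have h2 := Valued.isOpen_ball (v.adicCompletion (RatFunc F))
        (val.restrict 1)
      have h3 : {w : v.adicCompletion (RatFunc F) | val w < 1} =
          {w | val.restrict w < val.restrict 1} := by
        ext w
        simp only [Set.mem_ofPred_eq]
        rw [Valuation.restrict_lt_iff, map_one]
      rw [h3]
      exact h2
    exact h1.preimage (continuous_id.sub continuous_const)
  obtain ⟨k, hk⟩ := (denseRange_algebraMap (R := F[X]) (RatFunc F) v).exists_mem_open hopen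
      ⟨z, by simp only [Set.mem_ofPred_eq, sub_self, map_zero]; exact zero_lt_one⟩
  have hk1 : val (algebraMap (RatFunc F) (v.adicCompletion (RatFunc F)) k - z) < 1 := hk
  have hk2 : v.valuation (RatFunc F) k ≤ 1 := by
    rw [← hkv]
    have h3 : algebraMap (RatFunc F) (v.adicCompletion (RatFunc F)) k =
      (algebraMap (RatFunc F) (v.adicCompletion (RatFunc F)) k - z) + z := by ring
    rw [h3]
    exact (val.map_add _ _).trans (max_le hk1.le hz)
  obtain ⟨a, ha⟩ := exists_valuation_sub_lt_of_integer (K := RatFunc F) v hk2 1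
  have hlt : ∀ b c : v.adicCompletion (RatFunc F), val b < 1 → val c < 1 → val (b + c) < 1 :=
    fun b c hb hc => (val.map_add _ _).trans_lt (max_lt hb hc)
  refine ⟨_, ⟨a % P, EuclideanDomain.mod_lt a hP0, rfl⟩, ?_, ?_⟩
  · rw [show (Valued.v : Valuation (v.adicCompletion (RatFunc F)) ℤᵐ⁰) = val from rfl, hval]
    exact v.intValuation_le_one _
  · have h4 : z - algebraMap F[X] (v.adicCompletion (RatFunc F)) (a % P) =
        -(algebraMap (RatFunc F) (v.adicCompletion (RatFunc F)) k - z) +
        (-(algebraMap (RatFunc F) (v.adicCompletion (RatFunc F))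
          (algebraMap F[X] (RatFunc F) a - k)) +
        algebraMap F[X] (v.adicCompletion (RatFunc F)) (P * (a / P))) := by
      rw [map_sub, ← IsScalarTower.algebraMap_apply]
      have h5 : P * (a / P) = a - a % P := by
        rw [eq_sub_iff_add_eq]
        exact EuclideanDomain.div_add_mod a P
      rw [h5, map_sub]
      ring
    change val _ < 1
    rw [h4]
    refine hlt _ _ (by rw [Valuation.map_neg]; exact hk1) (hlt _ _ ?_ ?_)
    · rw [Valuation.map_neg, hkv]
      exact ha
    · rw [hval, intValuation_lt_one_iff_dvd, hP', Ideal.dvd_span_singleton]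
      exact Ideal.mem_span_singleton.2 (dvd_mul_right _ _)

/-- Coray's theorem at the infinite place of `F(t)` -/
theorem coray_laurent (F : Type) [Field F] [Finite F]
    (L : Type) [Field L] [Algebra (LaurentSeries F) L] [FiniteDimensional (LaurentSeries F) L]
    (h3 : ¬ 3 ∣ Module.finrank (LaurentSeries F) L) {ι : Type} [Fintype ι]
    (f : MvPolynomial ι (LaurentSeries F))
    (hf : f.IsHomogeneous 3) (x : ι → L) (hx : x ≠ 0) (h0 : MvPolynomial.aeval x f = 0) :
    ∃ y : ι → LaurentSeries F, y ≠ 0 ∧ MvPolynomial.aeval y f = 0 := by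
  refine coray_valued _ (LaurentSeries.valuation_surjective F)
    (Set.range (fun a : F => ((PowerSeries.C a : PowerSeries F) : LaurentSeries F)))
    (Set.finite_range _) ?_ L h3 f hf x hx h0
  intro z hz
  obtain ⟨g, rfl⟩ := (LaurentSeries.val_le_one_iff_eq_coe F z).1 hz
  refine ⟨_, ⟨PowerSeries.constantCoeff g, rfl⟩, ?_, ?_⟩
  · exact (LaurentSeries.val_le_one_iff_eq_coe F _).2 ⟨_, rfl⟩
  · refine lt_of_le_of_lt ((LaurentSeries.valuation_le_iff_coeff_lt_eq_zero F (D := 1)).2 ?_) ?_
    · intro n hn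
      rw [← PowerSeries.coe_sub]
      by_cases h0 : n < 0
      · rw [PowerSeries.coeff_coe, if_pos h0]
      · have h1 : n = ((0 : ℕ) : ℤ) := by
          push_cast
          omega
        rw [h1, LaurentSeries.coeff_coe_powerSeries]
        simp
    · rw [← exp_zero, exp_lt_exp]
      norm_num

end Pool.Agent.K7.H13.CL
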